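import Mathlib

/-!
# Best approximation vectors in a plane: the sizes and ranks for which this happens

Let `Θ` be a real `n × m` matrix with `Θ x ∉ ℤⁿ` for integer `x ≠ 0`. All best approximation vectors
of `Θ` can lie in a plane if and only if `m ≤ n` and `m ≤ 2 rank Θ`.
-/

namespace Pool.Agent.Results.MP_a0fa86_nt.PlanarClassification

/-- an integer vector as a real vector -/
def toReal {m : ℕ} (x : Fin m → ℤ) : Fin m → ℝ := fun i => (x i : ℝ)

/-- `|x|_∞` for `z = (x, y)` -/
noncomputable def size {m n : ℕ} (z : (Fin m → ℤ) × (Fin n → ℤ)) : ℝ := ‖toReal z.1‖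

/-- `|Θ x - y|_∞` for `z = (x, y)` -/
noncomputable def err {m n : ℕ} (Θ : Matrix (Fin n) (Fin m) ℝ)
    (z : (Fin m → ℤ) × (Fin n → ℤ)) : ℝ :=
  ‖Θ.mulVec (toReal z.1) - toReal z.2‖

/-- condition (G): `Θ x` is not an integer vector for integer `x ≠ 0` -/
def CondG {m n : ℕ} (Θ : Matrix (Fin n) (Fin m) ℝ) : Prop :=
  ∀ x : Fin m → ℤ, x ≠ 0 → ∀ y : Fin n → ℤ, Θ.mulVec (toReal x) ≠ toReal y

/-- best approximation vectors: `x ≠ 0` and the only integer points `(x', y')` with
`|x'|_∞ ≤ |x|_∞` and `|Θ x' - y'|_∞ ≤ |Θ x - y|_∞` are `0` and `± (x, y)` -/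
def IsBest {m n : ℕ} (Θ : Matrix (Fin n) (Fin m) ℝ) (z : (Fin m → ℤ) × (Fin n → ℤ)) : Prop :=
  z.1 ≠ 0 ∧ ∀ w : (Fin m → ℤ) × (Fin n → ℤ), size w ≤ size z → err Θ w ≤ err Θ z →
    w = 0 ∨ w = z ∨ w = -z

/-- `z` lists the best approximation vectors up to sign, in the order of increasing `|x|_∞` -/
def IsListing {m n : ℕ} (Θ : Matrix (Fin n) (Fin m) ℝ)
    (z : ℕ → (Fin m → ℤ) × (Fin n → ℤ)) : Prop :=
  (∀ ν, IsBest Θ (z ν)) ∧ StrictMono (fun ν => size (z ν)) ∧
    ∀ w, IsBest Θ w → ∃ ν, w = z ν ∨ w = -z ν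

/-- `z` is a sequence of minimal points of `Θ`: `x_ν ≠ 0`, `|x_ν|_∞` increases,
`|Θ x_ν - y_ν|_∞` decreases, and no integer point `(x, y)` with `0 < |x|_∞ < |x_{ν+1}|_∞` has
`|Θ x - y|_∞ < |Θ x_ν - y_ν|_∞` -/
def IsMinimalSeq {m n : ℕ} (Θ : Matrix (Fin n) (Fin m) ℝ)
    (z : ℕ → (Fin m → ℤ) × (Fin n → ℤ)) : Prop :=
  (∀ ν, (z ν).1 ≠ 0) ∧ StrictMono (fun ν => size (z ν)) ∧ StrictAnti (fun ν => err Θ (z ν)) ∧
    ∀ ν w, w.1 ≠ 0 → size w < size (z (ν + 1)) → err Θ (z ν) ≤ err Θ w

/-- `d(ν₀)`, the dimension of the real span of the `z_ν` with `ν ≥ ν₀` -/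
noncomputable def dimTail {m n : ℕ} (z : ℕ → (Fin m → ℤ) × (Fin n → ℤ)) (ν₀ : ℕ) : ℕ :=
  Module.finrank ℝ (Submodule.span ℝ
    ((fun ν => (toReal (z ν).1, toReal (z ν).2)) '' {ν | ν₀ ≤ ν}))

/-! ### The golden ratio -/

/-- `g = (√5 - 1) / 2` -/
noncomputable def g : ℝ := (Real.sqrt 5 - 1) / 2

theorem g_sq : g * g = 1 - g := by
  have h : Real.sqrt 5 * Real.sqrt 5 = 5 := Real.mul_self_sqrt (by norm_num)
  unfold g
  nlinarith

theorem g_lo : 0.618 < g := by
  have h : (2.236 : ℝ) < Real.sqrt 5 := Real.lt_sqrt_of_sq_lt (by norm_num)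
  unfold g
  linarith

theorem g_hi : g < 0.6181 := by
  have h : Real.sqrt 5 < 2.2361 := (Real.sqrt_lt' (by norm_num)).2 (by norm_num)
  unfold g
  linarith

theorem g_pos : 0 < g := by linarith [g_lo]

/-- the two integer sequences with `P ν + g Q ν = g ^ (ν + 2)` -/
def P (ν : ℕ) : ℤ := (-1) ^ ν * (Nat.fib (ν + 1) : ℤ)

/-- see `P` -/
def Q (ν : ℕ) : ℤ := (-1) ^ (ν + 1) * (Nat.fib (ν + 2) : ℤ)

theorem P_add (ν : ℕ) : P (ν + 2) = P ν - P (ν + 1) := by
  unfold P
  have : (Nat.fib (ν + 2 + 1) : ℤ) = Nat.fib (ν + 1) + Nat.fib (ν + 1 + 1) := by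
    have := Nat.fib_add_two (n := ν + 1)
    exact_mod_cast this
  rw [this]
  ring

theorem Q_add (ν : ℕ) : Q (ν + 2) = Q ν - Q (ν + 1) := by
  unfold Q
  have : (Nat.fib (ν + 2 + 2) : ℤ) = Nat.fib (ν + 2) + Nat.fib (ν + 1 + 2) := by
    have := Nat.fib_add_two (n := ν + 2)
    exact_mod_cast this
  rw [this]
  ring

theorem P_add_Q (ν : ℕ) : (P ν : ℝ) + g * Q ν = g ^ (ν + 2) := by
  induction ν using Nat.strong_induction_on with
  | _ ν ih =>
    match ν with
    | 0 => simp [P, Q]; nlinarith [g_sq]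
    | 1 =>
      simp [P, Q]
      have h3 : Nat.fib 3 = 2 := rfl
      rw [h3]
      push_cast
      nlinarith [g_sq]
    | ν + 2 =>
      have h0 := ih ν (by omega)
      have h1 := ih (ν + 1) (by omega)
      rw [P_add, Q_add]
      push_cast
      have : g ^ (ν + 2 + 2) = g ^ (ν + 2) - g ^ (ν + 1 + 2) := by
        have e1 : g ^ (ν + 2 + 2) = g ^ (ν + 2) * (g * g) := by ring
        rw [e1, g_sq]; ring
      rw [this, ← h0, ← h1]
      ring

theorem abs_Q (ν : ℕ) : |(Q ν : ℝ)| = Nat.fib (ν + 2) := by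
  unfold Q
  push_cast
  rw [abs_mul, abs_pow]
  simp

theorem abs_P (ν : ℕ) : |(P ν : ℝ)| = Nat.fib (ν + 1) := by
  unfold P
  push_cast
  rw [abs_mul, abs_pow]
  simp

/-- `(P ν, Q ν)` and `(P (ν + 1), Q (ν + 1))` form a basis of `ℤ²` -/
theorem decomp (ν : ℕ) (p q : ℤ) :
    ∃ a b : ℤ, p = a * P ν + b * P (ν + 1) ∧ q = a * Q ν + b * Q (ν + 1) := by
  induction ν with
  | zero =>
    refine ⟨2 * p + q, p + q, ?_, ?_⟩
    · simp [P]; ring
    · have h3 : Nat.fib 3 = 2 := rfl
      simp [Q, h3]; ring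
  | succ ν ih =>
    obtain ⟨a, b, h1, h2⟩ := ih
    refine ⟨a + b, a, ?_, ?_⟩
    · rw [h1, P_add]; ring
    · rw [h2, Q_add]; ring

/-- **Lagrange.** If `(p, q) ≠ 0` and `|q| < F_{ν+3}` then `|p + g q| ≥ g ^ (ν + 2)`, with equality
only for `± (P ν, Q ν)`. -/
theorem key (ν : ℕ) (p q : ℤ) (h0 : p ≠ 0 ∨ q ≠ 0) (hq : |(q : ℝ)| < Nat.fib (ν + 3)) :
    g ^ (ν + 2) ≤ |(p : ℝ) + g * q| ∧ (|(p : ℝ) + g * q| ≤ g ^ (ν + 2) →
      (p = P ν ∧ q = Q ν) ∨ (p = -P ν ∧ q = -Q ν)) := by
  obtain ⟨a, b, hp, hq'⟩ := decomp ν p q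
  have hgp : 0 < g ^ (ν + 2) := pow_pos g_pos _
  have ht : (p : ℝ) + g * q = g ^ (ν + 2) * (a + g * b) := by
    have e0 := P_add_Q ν
    have e1 := P_add_Q (ν + 1)
    have e2 : g ^ (ν + 1 + 2) = g ^ (ν + 2) * g := by ring
    rw [e2] at e1
    rw [hp, hq']
    push_cast
    linear_combination (a : ℝ) * e0 + (b : ℝ) * e1
  have hF : (1 : ℤ) ≤ Nat.fib (ν + 2) := by
    have : 0 < Nat.fib (ν + 2) := Nat.fib_pos.2 (by omega)
    exact_mod_cast this
  have hF' : (1 : ℤ) ≤ Nat.fib (ν + 3) := by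
    have : 0 < Nat.fib (ν + 3) := Nat.fib_pos.2 (by omega)
    exact_mod_cast this
  have hqz : |q| < (Nat.fib (ν + 3) : ℤ) := by
    have : ((|q| : ℤ) : ℝ) < ((Nat.fib (ν + 3) : ℤ) : ℝ) := by push_cast; exact hq
    exact_mod_cast this
  have hqe : |q| = |a * (Nat.fib (ν + 2) : ℤ) - b * (Nat.fib (ν + 3) : ℤ)| := by
    have : q = (-1) ^ (ν + 1) * (a * (Nat.fib (ν + 2) : ℤ) - b * (Nat.fib (ν + 3) : ℤ)) := by
      rw [hq']; unfold Q; ring
    rw [this, abs_mul, abs_pow]
    simp
  rw [hqe] at hqz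
  have ha : a ≠ 0 := by
    rintro rfl
    rw [zero_mul, zero_sub, abs_neg, abs_mul, abs_of_nonneg (by linarith : (0:ℤ) ≤ Nat.fib (ν + 3))]
      at hqz
    have hb : b = 0 := by
      by_contra hb
      have := Int.one_le_abs hb
      nlinarith
    subst hb
    simp at hp hq'
    tauto
  have hgab : b = 0 ∨ 1 + g ≤ |(a : ℝ) + g * b| := by
    by_cases hb : b = 0
    · exact Or.inl hb
    right
    rcases lt_or_gt_of_ne ha with ha' | ha' <;> rcases lt_or_gt_of_ne hb with hb' | hb'
    · have h1 : (a : ℝ) ≤ -1 := by exact_mod_cast (by omega : a ≤ -1)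
      have h2 : (b : ℝ) ≤ -1 := by exact_mod_cast (by omega : b ≤ -1)
      rw [abs_of_nonpos (by nlinarith [g_pos])]
      nlinarith [g_pos]
    · exfalso
      rw [abs_of_nonpos (by nlinarith)] at hqz
      nlinarith
    · exfalso
      rw [abs_of_nonneg (by nlinarith)] at hqz
      nlinarith
    · have h1 : (1 : ℝ) ≤ a := by exact_mod_cast (by omega : 1 ≤ a)
      have h2 : (1 : ℝ) ≤ b := by exact_mod_cast (by omega : 1 ≤ b)
      rw [abs_of_nonneg (by nlinarith [g_pos])]
      nlinarith [g_pos]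
  rw [ht, abs_mul, abs_of_pos hgp]
  rcases hgab with hb | hb
  · subst hb
    have h1 : (1 : ℝ) ≤ |(a : ℝ)| := by
      have := Int.one_le_abs ha
      exact_mod_cast this
    simp only [Int.cast_zero, mul_zero, add_zero]
    refine ⟨by nlinarith, fun h => ?_⟩
    have h2 : |(a : ℝ)| ≤ 1 := by
      by_contra h3
      push Not at h3
      nlinarith
    have h3 : |a| ≤ 1 := by exact_mod_cast h2
    have h4 : a = 1 ∨ a = -1 := by
      rcases abs_le.1 h3 with ⟨h5, h6⟩
      omega
    rcases h4 with rfl | rfl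
    · left; constructor
      · rw [hp]; ring
      · rw [hq']; ring
    · right; constructor
      · rw [hp]; ring
      · rw [hq']; ring
  · refine ⟨by nlinarith [g_pos], fun h => ?_⟩
    exfalso
    nlinarith [g_pos]

theorem fib_g (k : ℕ) : (Nat.fib (k + 1) : ℝ) * g ^ k ≤ 1 := by
  induction k using Nat.strong_induction_on with
  | _ k ih =>
    match k with
    | 0 => simp
    | 1 => simp; linarith [g_hi]
    | k + 2 =>
      have h0 := ih k (by omega)
      have h1 := ih (k + 1) (by omega)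
      have e : (Nat.fib (k + 2 + 1) : ℝ) = Nat.fib (k + 1) + Nat.fib (k + 1 + 1) := by
        have := Nat.fib_add_two (n := k + 1)
        exact_mod_cast this
      rw [e]
      have e2 : ((Nat.fib (k + 1) : ℝ) + Nat.fib (k + 1 + 1)) * g ^ (k + 2) =
          (Nat.fib (k + 1) * g ^ k) * (g * g) + (Nat.fib (k + 1 + 1) * g ^ (k + 1)) * g := by ring
      rw [e2]
      nlinarith [g_sq, g_pos, g_hi]

/-- if `|p + g q|` is small, then `p = q = 0` -/
theorem small (p q : ℤ) (X η : ℝ) (hX : 1 ≤ X) (hq : |(q : ℝ)| ≤ X) (h : |(p : ℝ) + g * q| ≤ η)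
    (hη : η * X < 1 / 16) : p = 0 ∧ q = 0 := by
  by_contra h0
  have h0' : p ≠ 0 ∨ q ≠ 0 := by tauto
  have h1 : (1 : ℝ) ≤ |((p * p - p * q - q * q : ℤ) : ℝ)| := by
    have hne : p * p - p * q - q * q ≠ 0 := by
      intro hz
      have hd : (2 * p - q) * (2 * p - q) = 5 * (q * q) := by nlinarith
      -- `√5` is irrational
      by_cases hq0 : q = 0
      · subst hq0
        simp at hz
        tauto
      have hirr : Irrational (Real.sqrt 5) := by
        have := Nat.Prime.irrational_sqrt (p := 5) (by norm_num)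
        exact_mod_cast this
      have hq0' : (q : ℝ) ≠ 0 := by exact_mod_cast hq0
      have h5 : Real.sqrt 5 = |((2 * p - q : ℤ) : ℝ) / q| := by
        rw [Real.sqrt_eq_iff_mul_self_eq (by norm_num) (abs_nonneg _), abs_mul_abs_self]
        have : (((2 * p - q : ℤ) : ℝ)) * ((2 * p - q : ℤ) : ℝ) = 5 * (q * q) := by
          exact_mod_cast hd
        field_simp
        nlinarith
      apply hirr
      rw [h5]
      exact ⟨|((2 * p - q : ℤ) : ℚ) / q|, by push_cast; rfl⟩
    have := Int.one_le_abs hne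
    exact_mod_cast this
  have h2 : ((p * p - p * q - q * q : ℤ) : ℝ) = ((p : ℝ) + g * q) * (p - (1 + g) * q) := by
    push_cast
    linear_combination (q : ℝ) * q * g_sq
  rw [h2, abs_mul] at h1
  have h3 : |(p : ℝ) - (1 + g) * q| ≤ |(p : ℝ) + g * q| + (1 + 2 * g) * |(q : ℝ)| := by
    have e : (p : ℝ) - (1 + g) * q = (p + g * q) - (1 + 2 * g) * q := by ring
    rw [e]
    refine (abs_sub _ _).trans ?_
    rw [abs_mul (1 + 2 * g), abs_of_pos (by linarith [g_pos] : (0 : ℝ) < 1 + 2 * g)]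
  have hη0 : 0 ≤ η := (abs_nonneg _).trans h
  have h4 : |(p : ℝ) - (1 + g) * q| ≤ η + 3 * X := by
    nlinarith [g_pos, g_hi, abs_nonneg (q : ℝ)]
  have h5 : η ≤ 1 / 16 := by nlinarith
  have h6 : 1 ≤ η * (η + 3 * X) := by
    refine h1.trans ?_
    exact mul_le_mul h h4 (abs_nonneg _) hη0
  nlinarith

/-! ### Basic facts -/

section basic

variable {m n : ℕ}

theorem toReal_neg (x : Fin m → ℤ) : toReal (-x) = -toReal x := by
  funext i; simp [toReal]

theorem toReal_sub (x y : Fin m → ℤ) : toReal (x - y) = toReal x - toReal y := by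
  funext i; simp [toReal]

theorem toReal_eq_zero {x : Fin m → ℤ} (h : toReal x = 0) : x = 0 := by
  funext i
  have := congrFun h i
  simpa [toReal] using this

theorem size_neg (z : (Fin m → ℤ) × (Fin n → ℤ)) : size (-z) = size z := by
  simp [size, toReal_neg]

theorem err_neg (Θ : Matrix (Fin n) (Fin m) ℝ) (z : (Fin m → ℤ) × (Fin n → ℤ)) :
    err Θ (-z) = err Θ z := by
  unfold err
  simp only [Prod.fst_neg, Prod.snd_neg, toReal_neg, Matrix.mulVec_neg]
  rw [← norm_neg]
  congr 1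
  abel

/-- `|x|_∞` is a natural number -/
theorem size_nat (z : (Fin m → ℤ) × (Fin n → ℤ)) : ∃ N : ℕ, size z = N := by
  refine ⟨Finset.univ.sup (fun i => (z.1 i).natAbs), ?_⟩
  apply le_antisymm
  · unfold size
    rw [pi_norm_le_iff_of_nonneg (by positivity)]
    intro i
    have h1 : (z.1 i).natAbs ≤ Finset.univ.sup (fun i => (z.1 i).natAbs) :=
      Finset.le_sup (f := fun i => (z.1 i).natAbs) (Finset.mem_univ i)
    have h2 : ‖toReal z.1 i‖ = ((z.1 i).natAbs : ℝ) := by
      simp [toReal, Nat.cast_natAbs]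
    rw [h2]
    exact_mod_cast h1
  · rcases isEmpty_or_nonempty (Fin m) with hm | hm
    · simp [Finset.univ_eq_empty]
      exact norm_nonneg _
    · obtain ⟨i, -, hi⟩ := Finset.exists_mem_eq_sup Finset.univ Finset.univ_nonempty
        (fun i => (z.1 i).natAbs)
      rw [hi]
      have h2 : ‖toReal z.1 i‖ = ((z.1 i).natAbs : ℝ) := by
        simp [toReal, Nat.cast_natAbs]
      rw [← h2]
      exact norm_le_pi_norm (toReal z.1) i

theorem size_pos {z : (Fin m → ℤ) × (Fin n → ℤ)} (h : z.1 ≠ 0) : 0 < size z := by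
  unfold size
  rw [norm_pos_iff]
  exact fun h' => h (toReal_eq_zero h')

theorem one_le_size {z : (Fin m → ℤ) × (Fin n → ℤ)} (h : z.1 ≠ 0) : 1 ≤ size z := by
  obtain ⟨N, hN⟩ := size_nat z
  have := size_pos h
  rw [hN] at this ⊢
  exact_mod_cast this

/-- sizes are integers -/
theorem size_add_one_le {z w : (Fin m → ℤ) × (Fin n → ℤ)} (h : size z < size w) :
    size z + 1 ≤ size w := by
  obtain ⟨N, hN⟩ := size_nat z
  obtain ⟨M, hM⟩ := size_nat w
  rw [hN, hM] at h ⊢
  exact_mod_cast h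

theorem err_nonneg (Θ : Matrix (Fin n) (Fin m) ℝ) (z : (Fin m → ℤ) × (Fin n → ℤ)) :
    0 ≤ err Θ z := norm_nonneg _

theorem err_pos {Θ : Matrix (Fin n) (Fin m) ℝ} (hG : CondG Θ) {z : (Fin m → ℤ) × (Fin n → ℤ)}
    (h : z.1 ≠ 0) : 0 < err Θ z := by
  unfold err
  rw [norm_pos_iff, sub_ne_zero]
  exact hG _ h _

/-- if `x = 0` and the error is less than one, then `y = 0` -/
theorem eq_zero_of_err {Θ : Matrix (Fin n) (Fin m) ℝ} {z : (Fin m → ℤ) × (Fin n → ℤ)}
    (h : z.1 = 0) (he : err Θ z < 1) : z = 0 := by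
  have h1 : err Θ z = ‖toReal z.2‖ := by
    unfold err
    have : toReal z.1 = 0 := by rw [h]; funext i; simp [toReal]
    rw [this, Matrix.mulVec_zero, zero_sub, norm_neg]
  rw [h1] at he
  have h2 : z.2 = 0 := by
    funext j
    have h3 := (norm_le_pi_norm (toReal z.2) j).trans_lt he
    have h4 : |((z.2 j : ℤ) : ℝ)| < 1 := by simpa [toReal] using h3
    have h5 : |z.2 j| < 1 := by exact_mod_cast h4
    exact Int.abs_lt_one_iff.1 h5
  exact Prod.ext h h2

/-- the real vector of an integer vector -/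
noncomputable def vec (z : (Fin m → ℤ) × (Fin n → ℤ)) : (Fin m → ℝ) × (Fin n → ℝ) :=
  (toReal z.1, toReal z.2)

theorem vec_neg (z : (Fin m → ℤ) × (Fin n → ℤ)) : vec (-z) = -vec z := by
  simp [vec, toReal_neg]

/-- vectors with increasing size and decreasing error are independent -/
theorem indep {Θ : Matrix (Fin n) (Fin m) ℝ} {z w : (Fin m → ℤ) × (Fin n → ℤ)}
    (h1 : size z < size w) (h2 : err Θ w < err Θ z) {α β : ℝ}
    (h : α • vec z + β • vec w = 0) : α = 0 ∧ β = 0 := by
  have hs : |α| * size z = |β| * size w := by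
    have : α • toReal z.1 = -(β • toReal w.1) := by
      have := congrArg Prod.fst h
      simp only [vec, Prod.fst_add, Prod.smul_fst, Prod.fst_zero] at this
      exact eq_neg_of_add_eq_zero_left this
    have := congrArg norm this
    rw [norm_neg, norm_smul, norm_smul] at this
    simpa [size] using this
  have he : |α| * err Θ z = |β| * err Θ w := by
    have h3 : α • toReal z.1 + β • toReal w.1 = 0 := by
      have := congrArg Prod.fst h
      simpa [vec] using this
    have h4 : α • toReal z.2 + β • toReal w.2 = 0 := by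
      have := congrArg Prod.snd h
      simpa [vec] using this
    have : α • (Θ.mulVec (toReal z.1) - toReal z.2) =
        -(β • (Θ.mulVec (toReal w.1) - toReal w.2)) := by
      rw [eq_neg_iff_add_eq_zero]
      calc α • (Θ.mulVec (toReal z.1) - toReal z.2) + β • (Θ.mulVec (toReal w.1) - toReal w.2)
          = Θ.mulVec (α • toReal z.1 + β • toReal w.1) - (α • toReal z.2 + β • toReal w.2) := by
            rw [Matrix.mulVec_add, Matrix.mulVec_smul, Matrix.mulVec_smul]
            module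
        _ = 0 := by rw [h3, h4]; simp
    have := congrArg norm this
    rw [norm_neg, norm_smul, norm_smul] at this
    simpa [err] using this
  have hz0 : 0 ≤ size z := norm_nonneg _
  have hw0 : 0 ≤ err Θ w := norm_nonneg _
  have hα := abs_nonneg α
  have hβ := abs_nonneg β
  have hβ0 : |β| = 0 := by
    by_contra hne
    have hpos : 0 < |β| := lt_of_le_of_ne hβ (Ne.symm hne)
    have h3 : |β| < |α| := by
      by_contra h4
      push Not at h4
      nlinarith
    nlinarith
  have hα0 : |α| = 0 := by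
    rw [hβ0, zero_mul] at he
    rcases mul_eq_zero.1 he with h | h
    · exact h
    · linarith
  exact ⟨abs_eq_zero.1 hα0, abs_eq_zero.1 hβ0⟩

end basic

/-! ### Matrices whose good approximations lie in a plane -/

/-- `φ p q` are the integer points of a plane; outside of the plane, there are no good
approximations -/
structure Planar {m n : ℕ} (Θ : Matrix (Fin n) (Fin m) ℝ) (c : ℝ)
    (φ : ℤ → ℤ → (Fin m → ℤ) × (Fin n → ℤ)) : Prop where
  cpos : 0 < c
  cle : c ≤ 1
  err_eq : ∀ p q : ℤ, err Θ (φ p q) = c * |(p : ℝ) + g * q|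
  size_lo : ∀ p q : ℤ, |(q : ℝ)| ≤ size (φ p q)
  size_hi : ∀ p q : ℤ, size (φ p q) ≤ max |(p : ℝ)| |(q : ℝ)|
  off : ∀ w, w.1 ≠ 0 → (∀ p q, w ≠ φ p q) → c ≤ size w * err Θ w
  lin : ∀ p q : ℤ, vec (φ p q) = (p : ℝ) • vec (φ 1 0) + (q : ℝ) • vec (φ 0 1)
  neg : ∀ p q : ℤ, φ (-p) (-q) = -φ p q

namespace Planar

variable {m n : ℕ} {Θ : Matrix (Fin n) (Fin m) ℝ} {c : ℝ}
  {φ : ℤ → ℤ → (Fin m → ℤ) × (Fin n → ℤ)}

theorem size_star (h : Planar Θ c φ) (ν : ℕ) : size (φ (P ν) (Q ν)) = Nat.fib (ν + 2) := by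
  apply le_antisymm
  · refine (h.size_hi _ _).trans ?_
    rw [abs_P, abs_Q]
    apply max_le
    · exact_mod_cast Nat.fib_mono (by omega : ν + 1 ≤ ν + 2)
    · exact le_rfl
  · exact (abs_Q ν).symm.le.trans (h.size_lo _ _)

theorem err_star (h : Planar Θ c φ) (ν : ℕ) : err Θ (φ (P ν) (Q ν)) = c * g ^ (ν + 2) := by
  rw [h.err_eq, P_add_Q, abs_of_pos (pow_pos g_pos _)]

theorem star_ne (h : Planar Θ c φ) (ν : ℕ) : (φ (P ν) (Q ν)).1 ≠ 0 := by
  intro h0
  have h1 := h.size_star ν
  have h2 : size (φ (P ν) (Q ν)) = 0 := by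
    unfold size
    rw [h0]
    have : toReal (0 : Fin m → ℤ) = 0 := by funext i; simp [toReal]
    rw [this, norm_zero]
  have h3 : 0 < Nat.fib (ν + 2) := Nat.fib_pos.2 (by omega)
  have h4 : (0 : ℝ) < Nat.fib (ν + 2) := by exact_mod_cast h3
  linarith

/-- the fundamental inequality -/
theorem main (h : Planar Θ c φ) (ν : ℕ) (w : (Fin m → ℤ) × (Fin n → ℤ)) (hw : w ≠ 0)
    (hs : size w < Nat.fib (ν + 3)) (he : err Θ w ≤ c * g ^ (ν + 2)) :
    w = φ (P ν) (Q ν) ∨ w = -φ (P ν) (Q ν) := by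
  have hg1 : g ^ (ν + 2) < 1 := pow_lt_one₀ g_pos.le (by linarith [g_hi]) (by omega)
  have hgp : 0 < g ^ (ν + 2) := pow_pos g_pos _
  have hcp := h.cpos
  have hc1 := h.cle
  have hw1 : w.1 ≠ 0 := by
    intro h1
    apply hw
    apply eq_zero_of_err h1 (Θ := Θ)
    calc err Θ w ≤ c * g ^ (ν + 2) := he
      _ < 1 := by nlinarith
  by_cases hP : ∃ p q, w = φ p q
  · obtain ⟨p, q, rfl⟩ := hP
    rw [h.err_eq] at he
    have hpq : p ≠ 0 ∨ q ≠ 0 := by
      by_contra hcon
      have : p = 0 ∧ q = 0 := by tauto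
      obtain ⟨rfl, rfl⟩ := this
      have h1 := h.size_hi 0 0
      have h2 := size_pos hw1
      simp at h1
      linarith
    have hk := key ν p q hpq ((h.size_lo p q).trans_lt hs)
    rcases hk.2 (le_of_mul_le_mul_left he hcp) with ⟨h1, h2⟩ | ⟨h1, h2⟩
    · left; rw [h1, h2]
    · right; rw [h1, h2, h.neg]
  · exfalso
    push Not at hP
    have h1 := h.off w hw1 hP
    have h2 := fib_g (ν + 2)
    have h3 : size w * err Θ w ≤ size w * (c * g ^ (ν + 2)) :=
      mul_le_mul_of_nonneg_left he (norm_nonneg _)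
    have h4 : size w * (c * g ^ (ν + 2)) < Nat.fib (ν + 3) * (c * g ^ (ν + 2)) :=
      mul_lt_mul_of_pos_right hs (by positivity)
    have h5 : (Nat.fib (ν + 3) : ℝ) * (c * g ^ (ν + 2)) =
        c * ((Nat.fib (ν + 2 + 1) : ℝ) * g ^ (ν + 2)) := by ring
    nlinarith

theorem best_star (h : Planar Θ c φ) (ν : ℕ) : IsBest Θ (φ (P ν) (Q ν)) := by
  refine ⟨h.star_ne ν, fun w hs he => ?_⟩
  by_cases hw : w = 0
  · exact Or.inl hw
  right
  refine h.main ν w hw ?_ ?_
  · rw [h.size_star] at hs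
    refine hs.trans_lt ?_
    have : Nat.fib (ν + 2) < Nat.fib (ν + 3) := Nat.fib_lt_fib_succ (by omega)
    exact_mod_cast this
  · rwa [h.err_star] at he

/-- the level of an integer vector -/
theorem exists_level {X : ℕ} (hX : 1 ≤ X) : ∃ ν, Nat.fib (ν + 2) ≤ X ∧ X < Nat.fib (ν + 3) := by
  have hex : ∃ ν, X < Nat.fib (ν + 3) := by
    refine ⟨X + 4, ?_⟩
    have := Nat.le_fib_self (n := X + 4 + 3) (by omega)
    omega
  classical
  refine ⟨Nat.find hex, ?_, Nat.find_spec hex⟩
  by_cases h0 : Nat.find hex = 0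
  · rw [h0]; simpa using hX
  · have h1 := Nat.find_min hex (m := Nat.find hex - 1) (by omega)
    push Not at h1
    have : Nat.find hex - 1 + 3 = Nat.find hex + 2 := by omega
    rwa [this] at h1

theorem best_is_star (h : Planar Θ c φ) (w : (Fin m → ℤ) × (Fin n → ℤ)) (hw : IsBest Θ w) :
    ∃ ν, w = φ (P ν) (Q ν) ∨ w = -φ (P ν) (Q ν) := by
  obtain ⟨N, hN⟩ := size_nat w
  have hN1 : 1 ≤ N := by
    have := one_le_size hw.1
    rw [hN] at this
    exact_mod_cast this
  obtain ⟨ν, h1, h2⟩ := exists_level hN1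
  refine ⟨ν, ?_⟩
  have h2' : size w < Nat.fib (ν + 3) := by rw [hN]; exact_mod_cast h2
  rcases le_or_gt (err Θ w) (c * g ^ (ν + 2)) with he | he
  · exact h.main ν w (fun h0 => hw.1 (by rw [h0]; rfl)) h2' he
  · have h3 := hw.2 (φ (P ν) (Q ν)) (by rw [h.size_star, hN]; exact_mod_cast h1)
      (by rw [h.err_star]; exact he.le)
    rcases h3 with h3 | h3 | h3
    · exact absurd (congrArg Prod.fst h3) (h.star_ne ν)
    · left; exact h3.symm
    · right; rw [h3, neg_neg]

theorem listing_star (h : Planar Θ c φ) : IsListing Θ (fun ν => φ (P ν) (Q ν)) := by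
  refine ⟨h.best_star, ?_, h.best_is_star⟩
  apply strictMono_nat_of_lt_succ
  intro ν
  rw [h.size_star, h.size_star]
  have : Nat.fib (ν + 2) < Nat.fib (ν + 3) := Nat.fib_lt_fib_succ (by omega)
  exact_mod_cast this

theorem minimal_is_star (h : Planar Θ c φ) (z : ℕ → (Fin m → ℤ) × (Fin n → ℤ))
    (hz : IsMinimalSeq Θ z) (ν : ℕ) :
    ∃ k, z ν = φ (P k) (Q k) ∨ z ν = -φ (P k) (Q k) := by
  obtain ⟨h1, h2, h3, h4⟩ := hz
  obtain ⟨N, hN⟩ := size_nat (z (ν + 1))
  have h5 := size_add_one_le (h2 (Nat.lt_succ_self ν))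
  have h6 := one_le_size (h1 ν)
  have hN2 : 2 ≤ N := by
    have : (2 : ℝ) ≤ N := by
      rw [← hN]
      linarith
    exact_mod_cast this
  obtain ⟨k, hk1, hk2⟩ := exists_level (X := N - 1) (by omega)
  refine ⟨k, h.main k (z ν) (fun h0 => h1 ν (by rw [h0]; rfl)) ?_ ?_⟩
  · have h7 : size (z ν) + 1 ≤ N := by rw [← hN]; exact h5
    have h8 : (N : ℝ) < Nat.fib (k + 3) + 1 := by
      have : N < Nat.fib (k + 3) + 1 := by omega
      exact_mod_cast this
    linarith
  · rw [← h.err_star]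
    apply h4 ν _ (h.star_ne k)
    rw [h.size_star, hN]
    have : Nat.fib (k + 2) < N := by omega
    exact_mod_cast this

theorem condG (h : Planar Θ c φ) : CondG Θ := by
  intro x hx y hxy
  have he : err Θ (x, y) = 0 := by
    unfold err
    rw [hxy, sub_self, norm_zero]
  obtain ⟨N, hN⟩ := size_nat (x, y)
  have hN1 : 1 ≤ N := by
    have := one_le_size (z := (x, y)) hx
    rw [hN] at this
    exact_mod_cast this
  obtain ⟨ν, h1, h2⟩ := exists_level hN1
  have h3 := h.main ν (x, y) (fun h0 => hx (congrArg Prod.fst h0)) (by rw [hN]; exact_mod_cast h2)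
    (by rw [he]; have := h.cpos; have := g_pos; positivity)
  have h4 : err Θ (x, y) = c * g ^ (ν + 2) := by
    rcases h3 with h3 | h3
    · rw [h3, h.err_star]
    · rw [h3, err_neg, h.err_star]
  have := h.cpos
  have := pow_pos g_pos (ν + 2)
  nlinarith

/-- sequences of star vectors with increasing size span a plane -/
theorem dim_eq_two (h : Planar Θ c φ) (z : ℕ → (Fin m → ℤ) × (Fin n → ℤ))
    (hz : ∀ ν, ∃ k, z ν = φ (P k) (Q k) ∨ z ν = -φ (P k) (Q k))
    (hmono : StrictMono (fun ν => size (z ν))) (ν₀ : ℕ) : dimTail z ν₀ = 2 := by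
  have hsize : ∀ ν k, (z ν = φ (P k) (Q k) ∨ z ν = -φ (P k) (Q k)) →
      size (z ν) = Nat.fib (k + 2) ∧ err Θ (z ν) = c * g ^ (k + 2) := by
    intro ν k hk
    rcases hk with hk | hk
    · rw [hk]; exact ⟨h.size_star k, h.err_star k⟩
    · rw [hk, size_neg, err_neg]; exact ⟨h.size_star k, h.err_star k⟩
  apply le_antisymm
  · -- contained in a plane
    have hsub : Submodule.span ℝ ((fun ν => (toReal (z ν).1, toReal (z ν).2)) '' {ν | ν₀ ≤ ν}) ≤
        Submodule.span ℝ (Set.range ![vec (φ 1 0), vec (φ 0 1)]) := by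
      rw [Submodule.span_le]
      rintro _ ⟨ν, -, rfl⟩
      change vec (z ν) ∈ _
      obtain ⟨k, hk⟩ := hz ν
      have hmem : vec (φ (P k) (Q k)) ∈
          Submodule.span ℝ (Set.range ![vec (φ 1 0), vec (φ 0 1)]) := by
        have m0 : vec (φ 1 0) ∈ Set.range ![vec (φ 1 0), vec (φ 0 1)] := ⟨0, rfl⟩
        have m1 : vec (φ 0 1) ∈ Set.range ![vec (φ 1 0), vec (φ 0 1)] := ⟨1, rfl⟩
        rw [h.lin (P k) (Q k)]
        exact Submodule.add_mem _ (Submodule.smul_mem _ (P k : ℝ) (Submodule.subset_span m0))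
          (Submodule.smul_mem _ (Q k : ℝ) (Submodule.subset_span m1))
      rcases hk with hk | hk
      · rw [hk]; exact hmem
      · rw [hk, vec_neg]; exact Submodule.neg_mem _ hmem
    calc dimTail z ν₀ ≤ Module.finrank ℝ (Submodule.span ℝ (Set.range ![vec (φ 1 0), vec (φ 0 1)])) :=
          Submodule.finrank_mono hsub
      _ ≤ Fintype.card (Fin 2) := finrank_range_le_card _
      _ = 2 := by simp
  · -- two independent vectors
    obtain ⟨k, hk⟩ := hz ν₀
    obtain ⟨l, hl⟩ := hz (ν₀ + 1)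
    have hlt : size (z ν₀) < size (z (ν₀ + 1)) := hmono (Nat.lt_succ_self _)
    have herr : err Θ (z (ν₀ + 1)) < err Θ (z ν₀) := by
      rw [(hsize _ _ hk).2, (hsize _ _ hl).2]
      rw [(hsize _ _ hk).1, (hsize _ _ hl).1] at hlt
      have hlt' : Nat.fib (k + 2) < Nat.fib (l + 2) := by exact_mod_cast hlt
      have hkl : k < l := by
        by_contra hcon
        push Not at hcon
        have := Nat.fib_mono (by omega : l + 2 ≤ k + 2)
        omega
      exact mul_lt_mul_of_pos_left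
        (pow_lt_pow_right_of_lt_one₀ g_pos (by linarith [g_hi]) (by omega)) h.cpos
    have hli : LinearIndependent ℝ ![vec (z ν₀), vec (z (ν₀ + 1))] := by
      rw [LinearIndependent.pair_iff]
      intro α β hαβ
      exact indep hlt herr hαβ
    have hsub : Submodule.span ℝ (Set.range ![vec (z ν₀), vec (z (ν₀ + 1))]) ≤
        Submodule.span ℝ ((fun ν => (toReal (z ν).1, toReal (z ν).2)) '' {ν | ν₀ ≤ ν}) := by
      rw [Submodule.span_le]
      rintro _ ⟨i, rfl⟩
      fin_cases i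
      · exact Submodule.subset_span ⟨ν₀, le_refl ν₀, rfl⟩
      · exact Submodule.subset_span ⟨ν₀ + 1, Nat.le_succ ν₀, rfl⟩
    have h2 := finrank_span_eq_card hli
    simp only [Fintype.card_fin] at h2
    calc 2 = _ := h2.symm
      _ ≤ dimTail z ν₀ := Submodule.finrank_mono hsub

/-- everything which is claimed about planar matrices -/
theorem all (h : Planar Θ c φ) : CondG Θ ∧ (∃ z, IsListing Θ z) ∧
    (∀ z, IsListing Θ z → ∀ ν₀, dimTail z ν₀ = 2) ∧
    (∀ z, IsMinimalSeq Θ z → (∀ ν, IsBest Θ (z ν)) ∧ ∀ ν₀, dimTail z ν₀ = 2) := by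
  refine ⟨h.condG, ⟨_, h.listing_star⟩, ?_, ?_⟩
  · intro z hz ν₀
    exact h.dim_eq_two z (fun ν => h.best_is_star _ (hz.1 ν)) hz.2.1 ν₀
  · intro z hz
    refine ⟨fun ν => ?_, fun ν₀ => h.dim_eq_two z (h.minimal_is_star z hz) hz.2.1 ν₀⟩
    obtain ⟨k, hk | hk⟩ := h.minimal_is_star z hz ν
    · rw [hk]; exact h.best_star k
    · rw [hk]
      refine ⟨?_, fun w hs he => ?_⟩
      · simpa using h.star_ne k
      · rw [size_neg] at hs
        rw [err_neg] at he
        rcases (h.best_star k).2 w hs he with h1 | h1 | h1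
        · exact Or.inl h1
        · right; right; rw [h1, neg_neg]
        · right; left; exact h1

end Planar

/-! ### Construction of planar matrices -/

section construct

/-- the columns: a main pair, `b` further pairs and `s` single columns -/
abbrev Col (b s : ℕ) := Fin 2 ⊕ (Fin b × Fin 2) ⊕ Fin s

/-- the rows -/
abbrev Row (b s t : ℕ) := Col b s ⊕ Fin t

variable {m n b s t : ℕ}

/-- the linear forms -/
noncomputable def row (e : Fin m ≃ Col b s) (ρ : ℤ) : Row b s t → (Fin m → ℝ) →ₗ[ℝ] ℝ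
  | .inl (.inl 0) => (1 / 16 : ℝ) • (LinearMap.proj (e.symm (.inl 0)) +
      g • LinearMap.proj (e.symm (.inl 1))) + (ρ : ℝ) • LinearMap.proj (e.symm (.inl 0))
  | .inl (.inl 1) => (g / 16 : ℝ) • (LinearMap.proj (e.symm (.inl 0)) +
      g • LinearMap.proj (e.symm (.inl 1)))
  | .inl (.inr (.inl (k, 0))) => LinearMap.proj (e.symm (.inr (.inl (k, 0)))) +
      g • LinearMap.proj (e.symm (.inr (.inl (k, 1))))
  | .inl (.inr (.inl (k, 1))) => g • (LinearMap.proj (e.symm (.inr (.inl (k, 0)))) +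
      g • LinearMap.proj (e.symm (.inr (.inl (k, 1)))))
  | .inl (.inr (.inr j)) => g • LinearMap.proj (e.symm (.inr (.inr j)))
  | .inr _ => 0

/-- the linear map -/
noncomputable def T (e : Fin m ≃ Col b s) (f : Fin n ≃ Row b s t) (ρ : ℤ) :
    (Fin m → ℝ) →ₗ[ℝ] (Fin n → ℝ) := LinearMap.pi (fun i => row e ρ (f i))

/-- the matrix -/
noncomputable def mat (e : Fin m ≃ Col b s) (f : Fin n ≃ Row b s t) (ρ : ℤ) :
    Matrix (Fin n) (Fin m) ℝ := LinearMap.toMatrix' (T e f ρ)

theorem mat_mulVec (e : Fin m ≃ Col b s) (f : Fin n ≃ Row b s t) (ρ : ℤ) (x : Fin m → ℝ) :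
    (mat e f ρ).mulVec x = fun i => row e ρ (f i) x := by
  unfold mat
  rw [LinearMap.toMatrix'_mulVec]
  rfl

/-- column part of the plane -/
def colv (p q : ℤ) : Col b s → ℤ
  | .inl 0 => p
  | .inl 1 => q
  | .inr _ => 0

/-- row part of the plane -/
def rowv (ρ p : ℤ) : Row b s t → ℤ
  | .inl (.inl 0) => ρ * p
  | .inl (.inl 1) => 0
  | .inl (.inr _) => 0
  | .inr _ => 0

/-- the plane -/
def plane (e : Fin m ≃ Col b s) (f : Fin n ≃ Row b s t) (ρ : ℤ) (p q : ℤ) :
    (Fin m → ℤ) × (Fin n → ℤ) := (fun i => colv p q (e i), fun i => rowv ρ p (f i))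

theorem err_plane (e : Fin m ≃ Col b s) (f : Fin n ≃ Row b s t) (ρ : ℤ) (p q : ℤ) :
    err (mat e f ρ) (plane e f ρ p q) = 1 / 16 * |(p : ℝ) + g * q| := by
  unfold err
  rw [mat_mulVec]
  have hx : ∀ a, toReal (plane e f ρ p q).1 (e.symm a) = colv p q a := by
    intro a; simp [toReal, plane]
  have hval : ∀ i, ((fun i => row e ρ (f i) (toReal (plane e f ρ p q).1)) -
      toReal (plane e f ρ p q).2) i = row e ρ (f i) (toReal (plane e f ρ p q).1) -
      rowv ρ p (f i) := by
    intro i; simp [toReal, plane]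
  apply le_antisymm
  · rw [pi_norm_le_iff_of_nonneg (by positivity)]
    intro i
    rw [hval i]
    generalize f i = a
    have hg : |g| ≤ 1 := by rw [abs_of_pos g_pos]; linarith [g_hi]
    match a with
    | .inl (.inl 0) =>
      have e1 : row e ρ (.inl (.inl 0) : Row b s t) (toReal (plane e f ρ p q).1) -
          (rowv ρ p (.inl (.inl 0) : Row b s t) : ℤ) = 1 / 16 * ((p : ℝ) + g * q) := by
        simp [row, rowv, hx, colv]; ring
      rw [e1, Real.norm_eq_abs, abs_mul]
      norm_num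
    | .inl (.inl 1) =>
      have e1 : row e ρ (.inl (.inl 1) : Row b s t) (toReal (plane e f ρ p q).1) -
          (rowv ρ p (.inl (.inl 1) : Row b s t) : ℤ) = 1 / 16 * (g * ((p : ℝ) + g * q)) := by
        simp [row, rowv, hx, colv]; ring
      rw [e1, Real.norm_eq_abs, abs_mul, abs_mul]
      have := abs_nonneg ((p : ℝ) + g * q)
      have h16 : |(1 / 16 : ℝ)| = 1 / 16 := by norm_num
      rw [h16]
      nlinarith
    | .inl (.inr (.inl (k, 0))) =>
      simp [row, rowv, hx, colv]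
    | .inl (.inr (.inl (k, 1))) =>
      simp [row, rowv, hx, colv]
    | .inl (.inr (.inr j)) =>
      simp [row, rowv, hx, colv]
    | .inr j =>
      simp [row, rowv]
  · refine le_trans ?_ (norm_le_pi_norm _ (f.symm (.inl (.inl 0))))
    rw [hval]
    have e1 : row e ρ (f (f.symm (.inl (.inl 0)))) (toReal (plane e f ρ p q).1) -
        (rowv ρ p (f (f.symm (.inl (.inl 0)))) : ℤ) = 1 / 16 * ((p : ℝ) + g * q) := by
      simp [row, rowv, hx, colv]; ring
    rw [e1, Real.norm_eq_abs, abs_mul]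
    norm_num

theorem planar (e : Fin m ≃ Col b s) (f : Fin n ≃ Row b s t) (ρ : ℤ) :
    Planar (mat e f ρ) (1 / 16) (plane e f ρ) where
  cpos := by norm_num
  cle := by norm_num
  err_eq := err_plane e f ρ
  size_lo := by
    intro p q
    refine le_trans (le_of_eq ?_) (norm_le_pi_norm _ (e.symm (.inl 1)))
    simp [toReal, plane, colv]
  size_hi := by
    intro p q
    unfold size
    rw [pi_norm_le_iff_of_nonneg (by positivity)]
    intro i
    simp only [toReal, plane]
    generalize e i = a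
    match a with
    | .inl 0 => simp [colv]
    | .inl 1 => simp [colv]
    | .inr _ => simp [colv]
  lin := by
    intro p q
    refine Prod.ext ?_ ?_
    · funext i
      simp only [vec, toReal, plane, Prod.fst_add, Prod.smul_fst, Pi.add_apply, Pi.smul_apply,
        smul_eq_mul]
      generalize e i = a
      match a with
      | .inl 0 => simp [colv]
      | .inl 1 => simp [colv]
      | .inr _ => simp [colv]
    · funext i
      simp only [vec, toReal, plane, Prod.snd_add, Prod.smul_snd, Pi.add_apply, Pi.smul_apply,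
        smul_eq_mul]
      generalize f i = a
      match a with
      | .inl (.inl 0) => simp [rowv]; ring
      | .inl (.inl 1) => simp [rowv]
      | .inl (.inr _) => simp [rowv]
      | .inr _ => simp [rowv]
  neg := by
    intro p q
    refine Prod.ext ?_ ?_
    · funext i
      simp only [plane, Prod.fst_neg, Pi.neg_apply]
      generalize e i = a
      match a with
      | .inl 0 => simp [colv]
      | .inl 1 => simp [colv]
      | .inr _ => simp [colv]
    · funext i
      simp only [plane, Prod.snd_neg, Pi.neg_apply]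
      generalize f i = a
      match a with
      | .inl (.inl 0) => simp [rowv]
      | .inl (.inl 1) => simp [rowv]
      | .inl (.inr _) => simp [rowv]
      | .inr _ => simp [rowv]
  off := by
    intro w hw hP
    by_contra hcon
    push Not at hcon
    set S := size w with hS
    set η := err (mat e f ρ) w with hη
    have hS1 : 1 ≤ S := one_le_size hw
    have hη0 : 0 ≤ η := err_nonneg _ _
    have hηS : η * S < 1 / 16 := by linarith [mul_comm S η]
    have hηsm : η < 1 / 16 := by nlinarith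
    have hx : ∀ a, |((w.1 (e.symm a) : ℤ) : ℝ)| ≤ S := by
      intro a
      exact norm_le_pi_norm (toReal w.1) (e.symm a)
    have hrow : ∀ a : Row b s t, |row e ρ a (toReal w.1) - (w.2 (f.symm a) : ℤ)| ≤ η := by
      intro a
      have := norm_le_pi_norm ((mat e f ρ).mulVec (toReal w.1) - toReal w.2) (f.symm a)
      rw [mat_mulVec] at this
      simpa [toReal, hη, err, mat_mulVec] using this
    -- trivial rows
    have h1 : ∀ j, w.2 (f.symm (.inr j)) = 0 := by
      intro j
      have := hrow (.inr j)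
      simp only [row, LinearMap.zero_apply, zero_sub, abs_neg] at this
      have h2 : |((w.2 (f.symm (.inr j)) : ℤ) : ℝ)| < 1 := by linarith
      have h3 : |w.2 (f.symm (.inr j))| < 1 := by exact_mod_cast h2
      exact Int.abs_lt_one_iff.1 h3
    -- single columns
    have h2 : ∀ j, w.1 (e.symm (.inr (.inr j))) = 0 ∧ w.2 (f.symm (.inl (.inr (.inr j)))) = 0 := by
      intro j
      have := hrow (.inl (.inr (.inr j)))
      simp only [row, LinearMap.smul_apply, LinearMap.proj_apply, smul_eq_mul, toReal] at this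
      have h3 := small (-w.2 (f.symm (.inl (.inr (.inr j))))) (w.1 (e.symm (.inr (.inr j)))) S η hS1
        (hx _) (by push_cast; convert this using 2; ring) hηS
      exact ⟨h3.2, by simpa using h3.1⟩
    -- further pairs
    have h3 : ∀ k, w.1 (e.symm (.inr (.inl (k, 0)))) = 0 ∧ w.1 (e.symm (.inr (.inl (k, 1)))) = 0 ∧
        w.2 (f.symm (.inl (.inr (.inl (k, 0))))) = 0 ∧
        w.2 (f.symm (.inl (.inr (.inl (k, 1))))) = 0 := by
      intro k
      have r0 := hrow (.inl (.inr (.inl (k, 0))))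
      have r1 := hrow (.inl (.inr (.inl (k, 1))))
      simp only [row, LinearMap.smul_apply, LinearMap.add_apply, LinearMap.proj_apply, smul_eq_mul,
        toReal] at r0 r1
      have h4 := small (w.1 (e.symm (.inr (.inl (k, 0)))) - w.2 (f.symm (.inl (.inr (.inl (k, 0))))))
        (w.1 (e.symm (.inr (.inl (k, 1))))) S η hS1 (hx _)
        (by push_cast; convert r0 using 2; ring) hηS
      obtain ⟨h5, h6⟩ := h4
      rw [h6] at r1
      have h7 := small (-w.2 (f.symm (.inl (.inr (.inl (k, 1))))))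
        (w.1 (e.symm (.inr (.inl (k, 0))))) S η hS1 (hx _)
        (by push_cast; convert r1 using 2; push_cast; ring) hηS
      obtain ⟨h8, h9⟩ := h7
      refine ⟨h9, h6, ?_, by simpa using h8⟩
      rw [h9] at h5
      simpa using h5
    -- the main pair
    have h4 : w.2 (f.symm (.inl (.inl 0))) = ρ * w.1 (e.symm (.inl 0)) ∧
        w.2 (f.symm (.inl (.inl 1))) = 0 := by
      have r0 := hrow (.inl (.inl 0))
      have r1 := hrow (.inl (.inl 1))
      simp only [row, LinearMap.smul_apply, LinearMap.add_apply, LinearMap.proj_apply, smul_eq_mul,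
        toReal] at r0 r1
      set x0 := w.1 (e.symm (.inl 0)) with hx0
      set x1 := w.1 (e.symm (.inl 1)) with hx1
      set y0 := w.2 (f.symm (.inl (.inl 0))) with hy0
      set y1 := w.2 (f.symm (.inl (.inl 1))) with hy1
      have b0 : |(x0 : ℝ)| ≤ S := hx _
      have b1 : |(x1 : ℝ)| ≤ S := hx _
      have hd : |((y1 : ℤ) : ℝ) + g * ((-(y0 - ρ * x0) : ℤ) : ℝ)| ≤ (1 + g) * η := by
        have e1 : ((y1 : ℤ) : ℝ) + g * ((-(y0 - ρ * x0) : ℤ) : ℝ) =
            g * (1 / 16 * ((x0 : ℝ) + g * x1) + ρ * x0 - y0) -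
            (g / 16 * ((x0 : ℝ) + g * x1) - y1) := by push_cast; ring
        rw [e1]
        refine (abs_sub _ _).trans ?_
        rw [abs_mul, abs_of_pos g_pos]
        nlinarith [g_pos]
      -- size of the integer
      have hb : |((-(y0 - ρ * x0) : ℤ) : ℝ)| ≤ S / 8 + η := by
        have e1 : ((-(y0 - ρ * x0) : ℤ) : ℝ) =
            (1 / 16 * ((x0 : ℝ) + g * x1) + ρ * x0 - y0) - 1 / 16 * ((x0 : ℝ) + g * x1) := by
          push_cast; ring
        rw [e1]
        refine (abs_sub _ _).trans ?_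
        have e2 : |1 / 16 * ((x0 : ℝ) + g * x1)| ≤ S / 8 := by
          rw [abs_mul]
          have : |(x0 : ℝ) + g * x1| ≤ 2 * S := by
            refine (abs_add_le _ _).trans ?_
            rw [abs_mul, abs_of_pos g_pos]
            nlinarith [g_hi, abs_nonneg (x1 : ℝ), g_pos]
          rw [abs_of_pos (by norm_num : (0:ℝ) < 1 / 16)]
          linarith
        linarith
      have hz : y1 = 0 ∧ -(y0 - ρ * x0) = 0 := by
        by_cases hq : -(y0 - ρ * x0) = 0
        · rw [hq] at hd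
          have h5 : |(y1 : ℝ)| < 1 := by
            simp only [Int.cast_zero, mul_zero, add_zero] at hd
            nlinarith [g_hi]
          have h6 : |y1| < 1 := by exact_mod_cast h5
          exact ⟨Int.abs_lt_one_iff.1 h6, hq⟩
        · have h5 : (1 : ℝ) ≤ |((-(y0 - ρ * x0) : ℤ) : ℝ)| := by
            have := Int.one_le_abs hq
            exact_mod_cast this
          refine small y1 (-(y0 - ρ * x0)) _ ((1 + g) * η) h5 le_rfl hd ?_
          have h6 : |((-(y0 - ρ * x0) : ℤ) : ℝ)| * ((1 + g) * η) ≤ (S / 8 + η) * ((1 + g) * η) :=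
            mul_le_mul_of_nonneg_right hb (by nlinarith [g_pos])
          have h7 : (S / 8 + η) * η ≤ 3 / 256 := by nlinarith
          have h8 : 0 ≤ (S / 8 + η) * η := by positivity
          have h9 : (S / 8 + η) * ((1 + g) * η) ≤ 2 * ((S / 8 + η) * η) := by
            nlinarith [g_hi, g_pos]
          nlinarith
      exact ⟨by linarith [hz.2], hz.1⟩
    apply hP (w.1 (e.symm (.inl 0))) (w.1 (e.symm (.inl 1)))
    refine Prod.ext ?_ ?_
    · funext i
      obtain ⟨a, rfl⟩ := e.symm.surjective i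
      simp only [plane, Equiv.apply_symm_apply]
      match a with
      | .inl 0 => rfl
      | .inl 1 => rfl
      | .inr (.inl (k, 0)) => simp [colv, (h3 k).1]
      | .inr (.inl (k, 1)) => simp [colv, (h3 k).2.1]
      | .inr (.inr j) => simp [colv, (h2 j).1]
    · funext i
      obtain ⟨a, rfl⟩ := f.symm.surjective i
      simp only [plane, Equiv.apply_symm_apply]
      match a with
      | .inl (.inl 0) => simp [rowv, h4.1]
      | .inl (.inl 1) => simp [rowv, h4.2]
      | .inl (.inr (.inl (k, 0))) => simp [rowv, (h3 k).2.2.1]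
      | .inl (.inr (.inl (k, 1))) => simp [rowv, (h3 k).2.2.2]
      | .inl (.inr (.inr j)) => simp [rowv, (h2 j).2]
      | .inr j => simp [rowv, h1 j]

theorem rank_mat (e : Fin m ≃ Col b s) (f : Fin n ≃ Row b s t) (ρ : ℤ) :
    (mat e f ρ).rank = Module.finrank ℝ (LinearMap.range (T e f ρ)) := by
  rw [Matrix.rank, ← Matrix.toLin'_apply']
  unfold mat
  rw [Matrix.toLin'_toMatrix']

/-- full rank -/
theorem rank_full (e : Fin m ≃ Col 0 s) (f : Fin n ≃ Row 0 s t) : (mat e f 1).rank = m := by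
  rw [rank_mat, LinearMap.finrank_range_of_inj]
  · simp
  · rw [← LinearMap.ker_eq_bot, LinearMap.ker_eq_bot']
    intro x hx
    have hr : ∀ a : Row 0 s t, row e 1 a x = 0 := by
      intro a
      have := congrFun hx (f.symm a)
      simpa [T] using this
    have r0 := hr (.inl (.inl 0))
    have r1 := hr (.inl (.inl 1))
    simp only [row, LinearMap.smul_apply, LinearMap.add_apply, LinearMap.proj_apply, smul_eq_mul,
      Int.cast_one, one_mul] at r0 r1
    have hg := g_pos
    have h1 : x (e.symm (.inl 0)) + g * x (e.symm (.inl 1)) = 0 := by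
      rcases mul_eq_zero.1 r1 with h | h
      · linarith
      · exact h
    have h2 : x (e.symm (.inl 0)) = 0 := by linarith
    have h3 : x (e.symm (.inl 1)) = 0 := by
      rw [h2, zero_add] at h1
      rcases mul_eq_zero.1 h1 with h | h
      · linarith
      · exact h
    funext i
    obtain ⟨a, rfl⟩ := e.symm.surjective i
    match a with
    | .inl 0 => exact h2
    | .inl 1 => exact h3
    | .inr (.inl (k, _)) => exact k.elim0
    | .inr (.inr j) =>
      have := hr (.inl (.inr (.inr j)))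
      simp only [row, LinearMap.smul_apply, LinearMap.proj_apply, smul_eq_mul] at this
      rcases mul_eq_zero.1 this with h | h
      · linarith
      · exact h

/-- the first factor -/
noncomputable def vrow (e : Fin m ≃ Col b s) : Unit ⊕ Fin b ⊕ Fin s → (Fin m → ℝ) →ₗ[ℝ] ℝ
  | .inl _ => LinearMap.proj (e.symm (.inl 0)) + g • LinearMap.proj (e.symm (.inl 1))
  | .inr (.inl k) => LinearMap.proj (e.symm (.inr (.inl (k, 0)))) +
      g • LinearMap.proj (e.symm (.inr (.inl (k, 1))))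
  | .inr (.inr j) => LinearMap.proj (e.symm (.inr (.inr j)))

/-- the second factor -/
noncomputable def urow : Row b s t → (Unit ⊕ Fin b ⊕ Fin s → ℝ) →ₗ[ℝ] ℝ
  | .inl (.inl 0) => (1 / 16 : ℝ) • LinearMap.proj (.inl ())
  | .inl (.inl 1) => (g / 16 : ℝ) • LinearMap.proj (.inl ())
  | .inl (.inr (.inl (k, 0))) => LinearMap.proj (.inr (.inl k))
  | .inl (.inr (.inl (k, 1))) => g • LinearMap.proj (.inr (.inl k))
  | .inl (.inr (.inr j)) => g • LinearMap.proj (.inr (.inr j))
  | .inr _ => 0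

/-- minimal rank -/
theorem rank_low (e : Fin m ≃ Col b s) (f : Fin n ≃ Row b s t) :
    (mat e f 0).rank = 1 + (b + s) := by
  rw [rank_mat]
  have hT : T e f 0 = (LinearMap.pi (fun i => urow (f i))) ∘ₗ (LinearMap.pi (vrow e)) := by
    refine LinearMap.ext fun x => ?_
    funext i
    simp only [T, LinearMap.pi_apply, LinearMap.comp_apply]
    generalize f i = a
    match a with
    | .inl (.inl 0) => simp [row, urow, vrow]; ring
    | .inl (.inl 1) => simp [row, urow, vrow]; ring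
    | .inl (.inr (.inl (k, 0))) => simp [row, urow, vrow]
    | .inl (.inr (.inl (k, 1))) => simp [row, urow, vrow]; ring
    | .inl (.inr (.inr j)) => simp [row, urow, vrow]
    | .inr j => simp [row, urow]
  have hsurj : LinearMap.range (LinearMap.pi (vrow e)) = ⊤ := by
    rw [LinearMap.range_eq_top]
    intro w
    refine ⟨fun i => match e i with
      | .inl 0 => w (.inl ())
      | .inl 1 => 0
      | .inr (.inl (k, 0)) => w (.inr (.inl k))
      | .inr (.inl (k, 1)) => 0
      | .inr (.inr j) => w (.inr (.inr j)), ?_⟩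
    funext a
    match a with
    | .inl () => simp [vrow]
    | .inr (.inl k) => simp [vrow]
    | .inr (.inr j) => simp [vrow]
  rw [hT, LinearMap.range_comp_of_range_eq_top _ hsurj, LinearMap.finrank_range_of_inj]
  · simp
  · rw [← LinearMap.ker_eq_bot, LinearMap.ker_eq_bot']
    intro w hw
    have hr : ∀ a : Row b s t, (urow a : (Unit ⊕ Fin b ⊕ Fin s → ℝ) →ₗ[ℝ] ℝ) w = 0 := by
      intro a
      have := congrFun hw (f.symm a)
      simpa using this
    have hg := g_pos
    funext a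
    match a with
    | .inl () =>
      have := hr (.inl (.inl 0))
      simpa [urow] using this
    | .inr (.inl k) =>
      have := hr (.inl (.inr (.inl (k, 0))))
      simpa [urow] using this
    | .inr (.inr j) =>
      have := hr (.inl (.inr (.inr j)))
      simp only [urow, LinearMap.smul_apply, LinearMap.proj_apply, smul_eq_mul] at this
      rcases mul_eq_zero.1 this with h | h
      · linarith
      · exact h

end construct

/-! ### One column -/

section onecol

variable {n : ℕ}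

/-- one column -/
noncomputable def mat1 (i₀ : Fin n) : Matrix (Fin n) (Fin 1) ℝ := fun i _ => if i = i₀ then g else 0

/-- the plane -/
def plane1 (i₀ : Fin n) (p q : ℤ) : (Fin 1 → ℤ) × (Fin n → ℤ) :=
  (fun _ => q, fun i => if i = i₀ then -p else 0)

theorem mat1_mulVec (i₀ : Fin n) (x : Fin 1 → ℝ) :
    (mat1 i₀).mulVec x = fun i => (if i = i₀ then g else 0) * x 0 := by
  funext i
  simp [mat1, Matrix.mulVec, dotProduct]

theorem planar1 (i₀ : Fin n) : Planar (mat1 i₀) 1 (plane1 i₀) where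
  cpos := one_pos
  cle := le_rfl
  err_eq := by
    intro p q
    unfold err
    rw [mat1_mulVec]
    apply le_antisymm
    · rw [pi_norm_le_iff_of_nonneg (by positivity)]
      intro i
      by_cases hi : i = i₀
      · simp [plane1, toReal, hi, add_comm]
      · simp [plane1, toReal, hi]
    · refine le_trans ?_ (norm_le_pi_norm _ i₀)
      simp [plane1, toReal, add_comm]
  size_lo := by
    intro p q
    refine le_trans (le_of_eq ?_) (norm_le_pi_norm _ 0)
    simp [toReal, plane1]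
  size_hi := by
    intro p q
    unfold size
    rw [pi_norm_le_iff_of_nonneg (by positivity)]
    intro i
    simp [toReal, plane1]
  lin := by
    intro p q
    refine Prod.ext ?_ ?_
    · funext i
      simp [vec, toReal, plane1]
    · funext i
      by_cases hi : i = i₀
      · simp [vec, toReal, plane1, hi]
      · simp [vec, toReal, plane1, hi]
  neg := by
    intro p q
    refine Prod.ext ?_ ?_
    · funext i
      simp [plane1]
    · funext i
      by_cases hi : i = i₀
      · simp [plane1, hi]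
      · simp [plane1, hi]
  off := by
    intro w hw hP
    have h1 := one_le_size hw
    have h2 : 1 ≤ err (mat1 i₀) w := by
      have hex : ∃ i, i ≠ i₀ ∧ w.2 i ≠ 0 := by
        by_contra hcon
        push Not at hcon
        apply hP (-w.2 i₀) (w.1 0)
        refine Prod.ext ?_ ?_
        · funext i
          have : i = 0 := Subsingleton.elim _ _
          rw [this]
          rfl
        · funext i
          by_cases hi : i = i₀
          · simp [plane1, hi]
          · simp [plane1, hi, hcon i hi]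
      obtain ⟨i, hi, hi2⟩ := hex
      unfold err
      rw [mat1_mulVec]
      refine le_trans ?_ (norm_le_pi_norm _ i)
      have h3 : (1 : ℝ) ≤ |(w.2 i : ℝ)| := by
        have := Int.one_le_abs hi2
        exact_mod_cast this
      simpa [toReal, hi] using h3
    nlinarith

theorem rank_mat1 (i₀ : Fin n) : (mat1 i₀).rank = 1 := by
  rw [Matrix.rank, LinearMap.finrank_range_of_inj]
  · simp
  · rw [← LinearMap.ker_eq_bot, LinearMap.ker_eq_bot']
    intro x hx
    have h := congrFun hx i₀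
    rw [Matrix.mulVecLin_apply, mat1_mulVec] at h
    simp only [if_true, Pi.zero_apply] at h
    funext i
    have : i = 0 := Subsingleton.elim _ _
    rw [this]
    rcases mul_eq_zero.1 h with h | h
    · have := g_pos; linarith
    · exact h

end onecol

/-! ### Dirichlet's theorem -/

section dirichlet

variable {m n : ℕ}

/-- an integer vector is determined by its values, natural version -/
theorem dirichlet (Θ : Matrix (Fin n) (Fin m) ℝ) (K X : ℕ) (hK : 0 < K) (h : K ^ n < X ^ m) :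
    ∃ w : (Fin m → ℤ) × (Fin n → ℤ), w.1 ≠ 0 ∧ size w < X ∧ err Θ w < 1 / K := by
  classical
  have hKr : (0 : ℝ) < K := by exact_mod_cast hK
  have hX : 0 < X := by
    rcases Nat.eq_zero_or_pos X with h0 | h0
    · subst h0
      rcases Nat.eq_zero_or_pos m with hm | hm
      · subst hm
        have := Nat.one_le_pow n K hK
        simp at h
        omega
      · rw [zero_pow (by omega)] at h
        omega
    · exact h0
  have hXr : (0 : ℝ) < X := by exact_mod_cast hX
  let val : (Fin m → ℕ) → (Fin n → ℝ) := fun x => Θ.mulVec (fun i => (x i : ℝ))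
  let f : (Fin m → ℕ) → (Fin n → ℕ) := fun x j => ⌊K * Int.fract (val x j)⌋₊
  obtain ⟨x, hx, x', hx', hne, heq⟩ := Finset.exists_ne_map_eq_of_card_lt_of_maps_to
    (s := Fintype.piFinset (fun _ : Fin m => Finset.range X))
    (t := Fintype.piFinset (fun _ : Fin n => Finset.range K)) (f := f)
    (by simpa [Fintype.card_piFinset] using h)
    (by
      intro x _
      simp only [Finset.mem_coe, Fintype.mem_piFinset, Finset.mem_range]
      intro j
      rw [Nat.floor_lt' (by omega)]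
      have := Int.fract_lt_one (val x j)
      nlinarith)
  rw [Fintype.mem_piFinset] at hx hx'
  refine ⟨(fun i => (x i : ℤ) - x' i, fun j => ⌊val x j⌋ - ⌊val x' j⌋), ?_, ?_, ?_⟩
  · intro h0
    apply hne
    funext i
    have := congrFun h0 i
    simp only [Pi.zero_apply] at this
    omega
  · unfold size
    rw [pi_norm_lt_iff hXr]
    intro i
    have h1 := Finset.mem_range.1 (hx i)
    have h2 := Finset.mem_range.1 (hx' i)
    simp only [toReal, Real.norm_eq_abs]
    have h3 : |(x i : ℤ) - x' i| < X := by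
      rw [abs_lt]; constructor <;> omega
    exact_mod_cast h3
  · unfold err
    rw [pi_norm_lt_iff (by positivity)]
    intro j
    have h1 : Θ.mulVec (toReal (fun i => (x i : ℤ) - x' i)) = val x - val x' := by
      have : toReal (fun i => (x i : ℤ) - x' i) = (fun i => (x i : ℝ)) - (fun i => (x' i : ℝ)) := by
        funext i; simp [toReal]
      rw [this, Matrix.mulVec_sub]
    simp only [h1, Pi.sub_apply, toReal, Int.cast_sub, Real.norm_eq_abs]
    have h2 : val x j - val x' j - (⌊val x j⌋ - ⌊val x' j⌋) =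
        Int.fract (val x j) - Int.fract (val x' j) := by
      unfold Int.fract; ring
    rw [h2]
    have h3 : ⌊K * Int.fract (val x j)⌋₊ = ⌊K * Int.fract (val x' j)⌋₊ := congrFun heq j
    have h4 := Nat.floor_le (mul_nonneg hKr.le (Int.fract_nonneg (val x j)))
    have h5 := Nat.lt_floor_add_one (K * Int.fract (val x j))
    have h6 := Nat.floor_le (mul_nonneg hKr.le (Int.fract_nonneg (val x' j)))
    have h7 := Nat.lt_floor_add_one (K * Int.fract (val x' j))
    rw [h3] at h4 h5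
    rw [abs_lt, neg_lt_sub_iff_lt_add, sub_lt_iff_lt_add]
    constructor
    · rw [← mul_lt_mul_iff_right₀ hKr, mul_add, mul_one_div_cancel hKr.ne']
      linarith
    · rw [← mul_lt_mul_iff_right₀ hKr, mul_add, mul_one_div_cancel hKr.ne']
      linarith

/-- if `Θ + A` has small rank for some integer matrix `A`, there are very good approximations -/
theorem dirichlet_rank (Θ : Matrix (Fin n) (Fin m) ℝ) (A : Matrix (Fin n) (Fin m) ℤ) :
    ∃ C₁ C₂ : ℕ, 0 < C₁ ∧ 0 < C₂ ∧ ∀ K X : ℕ, 0 < K →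
      (2 * (K * C₂ * X) + 1) ^ (Θ + A.map (fun a : ℤ => (a : ℝ))).rank < X ^ m →
      ∃ w : (Fin m → ℤ) × (Fin n → ℤ), w.1 ≠ 0 ∧ size w < X ∧ err Θ w ≤ C₁ / K := by
  classical
  set B := Θ + A.map (fun a : ℤ => (a : ℝ)) with hB
  set r := B.rank with hr
  have hfin : Module.finrank ℝ (LinearMap.range B.mulVecLin) = Module.finrank ℝ (Fin r → ℝ) := by
    rw [Module.finrank_fin_fun]
    rfl
  let E := LinearEquiv.ofFinrankEq _ _ hfin
  let L : (Fin m → ℝ) →ₗ[ℝ] (Fin r → ℝ) := E.toLinearMap ∘ₗ B.mulVecLin.rangeRestrict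
  let U : (Fin r → ℝ) →ₗ[ℝ] (Fin n → ℝ) := (LinearMap.range B.mulVecLin).subtype ∘ₗ
    E.symm.toLinearMap
  have hUL : ∀ x, U (L x) = B.mulVec x := by
    intro x
    simp [U, L]
  obtain ⟨C₁, hC₁⟩ := exists_nat_ge (‖LinearMap.toContinuousLinearMap U‖ + 1)
  obtain ⟨C₂, hC₂⟩ := exists_nat_ge (‖LinearMap.toContinuousLinearMap L‖ + 1)
  have hU : ∀ v, ‖U v‖ ≤ C₁ * ‖v‖ := by
    intro v
    refine ((LinearMap.toContinuousLinearMap U).le_opNorm v).trans ?_
    exact mul_le_mul_of_nonneg_right (by linarith) (norm_nonneg _)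
  have hL : ∀ v, ‖L v‖ ≤ C₂ * ‖v‖ := by
    intro v
    refine ((LinearMap.toContinuousLinearMap L).le_opNorm v).trans ?_
    exact mul_le_mul_of_nonneg_right (by linarith) (norm_nonneg _)
  have hC₁p : (0 : ℝ) < C₁ := by
    have := norm_nonneg (LinearMap.toContinuousLinearMap U)
    linarith
  have hC₂p : (0 : ℝ) < C₂ := by
    have := norm_nonneg (LinearMap.toContinuousLinearMap L)
    linarith
  refine ⟨C₁, C₂, by exact_mod_cast hC₁p, by exact_mod_cast hC₂p, ?_⟩
  intro K X hK h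
  have hKr : (0 : ℝ) < K := by exact_mod_cast hK
  have hX : 0 < X := by
    rcases Nat.eq_zero_or_pos X with h0 | h0
    · subst h0
      rcases Nat.eq_zero_or_pos m with hm | hm
      · subst hm
        simp at h
      · rw [zero_pow (by omega)] at h
        omega
    · exact h0
  have hXr : (0 : ℝ) < X := by exact_mod_cast hX
  let val : (Fin m → ℕ) → (Fin r → ℝ) := fun x => L (fun i => (x i : ℝ))
  let f : (Fin m → ℕ) → (Fin r → ℤ) := fun x j => ⌊K * val x j⌋
  have hcard : (Fintype.piFinset (fun _ : Fin r =>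
      Finset.Icc (-((K * C₂ * X : ℕ) : ℤ)) ((K * C₂ * X : ℕ) : ℤ))).card =
      (2 * (K * C₂ * X) + 1) ^ r := by
    rw [Fintype.card_piFinset]
    simp only [Int.card_Icc, Finset.prod_const, Finset.card_univ, Fintype.card_fin]
    congr 1
    omega
  obtain ⟨x, hx, x', hx', hne, heq⟩ := Finset.exists_ne_map_eq_of_card_lt_of_maps_to
    (s := Fintype.piFinset (fun _ : Fin m => Finset.range X))
    (t := Fintype.piFinset (fun _ : Fin r =>
      Finset.Icc (-((K * C₂ * X : ℕ) : ℤ)) ((K * C₂ * X : ℕ) : ℤ))) (f := f)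
    (by rw [hcard]; simpa [Fintype.card_piFinset] using h)
    (by
      intro x hx
      rw [Finset.mem_coe, Fintype.mem_piFinset] at hx ⊢
      intro j
      have h1 : ‖(fun i => (x i : ℝ))‖ ≤ X := by
        rw [pi_norm_le_iff_of_nonneg hXr.le]
        intro i
        have := Finset.mem_range.1 (hx i)
        simp only [Real.norm_natCast]
        exact_mod_cast this.le
      have h2 : |val x j| ≤ C₂ * X := by
        have h3 := norm_le_pi_norm (val x) j
        have h4 := hL (fun i => (x i : ℝ))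
        have h5 : (C₂ : ℝ) * ‖(fun i => (x i : ℝ))‖ ≤ C₂ * X :=
          mul_le_mul_of_nonneg_left h1 hC₂p.le
        exact (h3.trans h4).trans h5
      have h3 := abs_le.1 h2
      have h6 : (-((K * C₂ * X : ℕ) : ℝ)) ≤ K * val x j := by
        push_cast
        nlinarith
      have h7 : K * val x j ≤ ((K * C₂ * X : ℕ) : ℝ) := by
        push_cast
        nlinarith
      rw [Finset.mem_Icc]
      constructor
      · rw [Int.le_floor]
        push_cast at h6 ⊢
        exact h6
      · have := (Int.floor_le (K * val x j)).trans h7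
        exact_mod_cast this)
  rw [Fintype.mem_piFinset] at hx hx'
  have hdiff : toReal (fun i => (x i : ℤ) - x' i) = (fun i => (x i : ℝ)) - (fun i => (x' i : ℝ)) := by
    funext i; simp [toReal]
  refine ⟨(fun i => (x i : ℤ) - x' i, -(A.mulVec (fun i => (x i : ℤ) - x' i))), ?_, ?_, ?_⟩
  · intro h0
    apply hne
    funext i
    have := congrFun h0 i
    simp only [Pi.zero_apply] at this
    omega
  · unfold size
    rw [pi_norm_lt_iff hXr]
    intro i
    have h1 := Finset.mem_range.1 (hx i)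
    have h2 := Finset.mem_range.1 (hx' i)
    simp only [toReal, Real.norm_eq_abs]
    have h3 : |(x i : ℤ) - x' i| < X := by
      rw [abs_lt]; constructor <;> omega
    exact_mod_cast h3
  · have h1 : err Θ (fun i => (x i : ℤ) - x' i, -(A.mulVec (fun i => (x i : ℤ) - x' i))) =
        ‖B.mulVec (toReal (fun i => (x i : ℤ) - x' i))‖ := by
      unfold err
      congr 1
      have h2 : toReal (-(A.mulVec (fun i => (x i : ℤ) - x' i))) =
          -((A.map (fun a : ℤ => (a : ℝ))).mulVec (toReal (fun i => (x i : ℤ) - x' i))) := by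
        funext j
        simp [toReal, Matrix.mulVec, dotProduct]
      rw [h2, hB, Matrix.add_mulVec, sub_neg_eq_add]
    rw [h1, ← hUL]
    refine (hU _).trans ?_
    rw [div_eq_mul_inv]
    refine mul_le_mul_of_nonneg_left ?_ hC₁p.le
    rw [pi_norm_le_iff_of_nonneg (by positivity)]
    intro j
    rw [hdiff, map_sub]
    change |val x j - val x' j| ≤ _
    have h3 : ⌊K * val x j⌋ = ⌊K * val x' j⌋ := congrFun heq j
    have h4 := Int.floor_le (K * val x j)
    have h5 := Int.lt_floor_add_one (K * val x j)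
    have h6 := Int.floor_le (K * val x' j)
    have h7 := Int.lt_floor_add_one (K * val x' j)
    rw [h3] at h4 h5
    rw [abs_le, neg_le_sub_iff_le_add, sub_le_iff_le_add]
    constructor
    · rw [← mul_le_mul_iff_right₀ hKr, mul_add, mul_inv_cancel₀ hKr.ne']
      linarith
    · rw [← mul_le_mul_iff_right₀ hKr, mul_add, mul_inv_cancel₀ hKr.ne']
      linarith

/-- very good approximations -/
theorem superDirichlet (Θ : Matrix (Fin n) (Fin m) ℝ)
    (h : n < m ∨ ∃ A : Matrix (Fin n) (Fin m) ℤ, 2 * (Θ + A.map (fun a : ℤ => (a : ℝ))).rank < m)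
    (D : ℕ) (hD : 0 < D) :
    ∃ X₀ : ℕ, ∀ X : ℕ, X₀ ≤ X → ∃ w : (Fin m → ℤ) × (Fin n → ℤ),
      w.1 ≠ 0 ∧ size w < X ∧ err Θ w * (D * X) ≤ 1 := by
  rcases h with h | ⟨A, h⟩
  · refine ⟨D ^ n + 1, fun X hX => ?_⟩
    have hXp : 0 < X := by omega
    have hlt : (D * X) ^ n < X ^ m := by
      calc (D * X) ^ n = D ^ n * X ^ n := mul_pow _ _ _
        _ < X * X ^ n := Nat.mul_lt_mul_of_pos_right (by omega) (pow_pos hXp n)
        _ = X ^ (n + 1) := by ring
        _ ≤ X ^ m := Nat.pow_le_pow_right hXp h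
    obtain ⟨w, h1, h2, h3⟩ := dirichlet Θ (D * X) X (by positivity) hlt
    refine ⟨w, h1, h2, ?_⟩
    have hp : (0 : ℝ) < ((D * X : ℕ) : ℝ) := by
      have : 0 < D * X := by positivity
      exact_mod_cast this
    rw [lt_div_iff₀ hp] at h3
    push_cast at h3
    exact h3.le
  · obtain ⟨C₁, C₂, hC₁, hC₂, hd⟩ := dirichlet_rank Θ A
    set r := (Θ + A.map (fun a : ℤ => (a : ℝ))).rank with hr
    refine ⟨(3 * (C₁ * D * C₂)) ^ r + 1, fun X hX => ?_⟩
    have hXp : 0 < X := by omega
    have hK : 0 < C₁ * D * X := by positivity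
    have hlt : (2 * (C₁ * D * X * C₂ * X) + 1) ^ r < X ^ m := by
      have h1 : 2 * (C₁ * D * X * C₂ * X) + 1 ≤ 3 * (C₁ * D * C₂) * X ^ 2 := by
        have h2 : 1 ≤ C₁ * D * X * C₂ * X := Nat.one_le_iff_ne_zero.2 (by positivity)
        calc 2 * (C₁ * D * X * C₂ * X) + 1 ≤ 3 * (C₁ * D * X * C₂ * X) := by omega
          _ = 3 * (C₁ * D * C₂) * X ^ 2 := by ring
      calc (2 * (C₁ * D * X * C₂ * X) + 1) ^ r ≤ (3 * (C₁ * D * C₂) * X ^ 2) ^ r :=
            Nat.pow_le_pow_left h1 r
        _ = (3 * (C₁ * D * C₂)) ^ r * X ^ (2 * r) := by rw [mul_pow, pow_mul]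
        _ < X * X ^ (2 * r) := Nat.mul_lt_mul_of_pos_right (by omega) (pow_pos hXp _)
        _ = X ^ (2 * r + 1) := by ring
        _ ≤ X ^ m := Nat.pow_le_pow_right hXp h
    obtain ⟨w, h1, h2, h3⟩ := hd (C₁ * D * X) X hK hlt
    refine ⟨w, h1, h2, ?_⟩
    have hC₁r : (0 : ℝ) < C₁ := by exact_mod_cast hC₁
    have hDX : (0 : ℝ) < D * X := by
      have : 0 < D * X := by positivity
      exact_mod_cast this
    have h4 : (C₁ : ℝ) / ((C₁ * D * X : ℕ) : ℝ) = 1 / (D * X) := by
      push_cast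
      field_simp
    rw [h4, le_div_iff₀ hDX] at h3
    exact h3

end dirichlet

theorem dirichlet0 {m n : ℕ} (Θ : Matrix (Fin n) (Fin m) ℝ) (hm : 0 < m) (ε : ℝ) (hε : 0 < ε) :
    ∃ w : (Fin m → ℤ) × (Fin n → ℤ), w.1 ≠ 0 ∧ err Θ w < ε := by
  obtain ⟨K, hK⟩ := exists_nat_gt (1 / ε)
  have hKr : (0 : ℝ) < K := lt_trans (by positivity) hK
  have hKp : 0 < K := by exact_mod_cast hKr
  have hlt : K ^ n < (K ^ n + 1) ^ m := by
    calc K ^ n < K ^ n + 1 := Nat.lt_succ_self _
      _ = (K ^ n + 1) ^ 1 := (pow_one _).symm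
      _ ≤ (K ^ n + 1) ^ m := Nat.pow_le_pow_right (by positivity) hm
  obtain ⟨w, h1, -, h2⟩ := dirichlet Θ K (K ^ n + 1) hKp hlt
  refine ⟨w, h1, h2.trans ?_⟩
  rw [div_lt_iff₀ hKr]
  rw [div_lt_iff₀ hε] at hK
  linarith

/-! ### Existence of sequences of minimal points -/

section existence

variable {m n : ℕ}

theorem finite_box (Θ : Matrix (Fin n) (Fin m) ℝ) (a b : ℝ) :
    {w : (Fin m → ℤ) × (Fin n → ℤ) | size w ≤ a ∧ err Θ w ≤ b}.Finite := by
  obtain ⟨N, hN⟩ := exists_nat_ge a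
  obtain ⟨M, hM⟩ := exists_nat_ge (‖LinearMap.toContinuousLinearMap Θ.mulVecLin‖ * N + b)
  refine ((Set.finite_Icc (fun _ => -(N : ℤ) : Fin m → ℤ) (fun _ => (N : ℤ))).prod
    (Set.finite_Icc (fun _ => -(M : ℤ) : Fin n → ℤ) (fun _ => (M : ℤ)))).subset ?_
  rintro w ⟨h1, h2⟩
  have hx : ∀ i, |w.1 i| ≤ (N : ℤ) := by
    intro i
    have h3 := (norm_le_pi_norm (toReal w.1) i).trans (h1.trans hN)
    have h4 : |((w.1 i : ℤ) : ℝ)| ≤ N := h3
    exact_mod_cast h4
  have hy : ∀ j, |w.2 j| ≤ (M : ℤ) := by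
    intro j
    have h3 : ‖toReal w.2‖ ≤ M := by
      have h4 : toReal w.2 = Θ.mulVec (toReal w.1) - (Θ.mulVec (toReal w.1) - toReal w.2) := by
        abel
      rw [h4]
      refine (norm_sub_le _ _).trans ?_
      have h5 : ‖Θ.mulVec (toReal w.1)‖ ≤
          ‖LinearMap.toContinuousLinearMap Θ.mulVecLin‖ * ‖toReal w.1‖ :=
        (LinearMap.toContinuousLinearMap Θ.mulVecLin).le_opNorm _
      have h6 : ‖LinearMap.toContinuousLinearMap Θ.mulVecLin‖ * ‖toReal w.1‖ ≤
          ‖LinearMap.toContinuousLinearMap Θ.mulVecLin‖ * N :=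
        mul_le_mul_of_nonneg_left (h1.trans hN) (norm_nonneg _)
      have h7 : ‖Θ.mulVec (toReal w.1) - toReal w.2‖ ≤ b := h2
      linarith
    have h4 : |((w.2 j : ℤ) : ℝ)| ≤ M := (norm_le_pi_norm (toReal w.2) j).trans h3
    exact_mod_cast h4
  exact ⟨⟨fun i => (abs_le.1 (hx i)).1, fun i => (abs_le.1 (hx i)).2⟩,
    ⟨fun j => (abs_le.1 (hy j)).1, fun j => (abs_le.1 (hy j)).2⟩⟩

/-- minimal points -/
def Good (Θ : Matrix (Fin n) (Fin m) ℝ) (z : (Fin m → ℤ) × (Fin n → ℤ)) : Prop :=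
  z.1 ≠ 0 ∧ ∀ w, w.1 ≠ 0 → size w ≤ size z → err Θ z ≤ err Θ w

theorem exists_good (Θ : Matrix (Fin n) (Fin m) ℝ) (w₀ : (Fin m → ℤ) × (Fin n → ℤ))
    (hw₀ : w₀.1 ≠ 0) : ∃ z, Good Θ z ∧ size z ≤ size w₀ ∧ err Θ z ≤ err Θ w₀ := by
  have hfin : {w : (Fin m → ℤ) × (Fin n → ℤ) | w.1 ≠ 0 ∧ size w ≤ size w₀ ∧
      err Θ w ≤ err Θ w₀}.Finite :=
    (finite_box Θ (size w₀) (err Θ w₀)).subset (fun w hw => hw.2)
  obtain ⟨z, hz, hmin⟩ := Set.exists_min_image _ (err Θ) hfin ⟨w₀, hw₀, le_rfl, le_rfl⟩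
  refine ⟨z, ⟨hz.1, fun w hw hs => ?_⟩, hz.2.1, hz.2.2⟩
  rcases le_or_gt (err Θ w) (err Θ w₀) with h | h
  · exact hmin w ⟨hw, hs.trans hz.2.1, h⟩
  · exact hz.2.2.trans h.le

theorem exists_next (hm : 0 < m) {Θ : Matrix (Fin n) (Fin m) ℝ} (hG : CondG Θ)
    (z : (Fin m → ℤ) × (Fin n → ℤ)) (hz : Good Θ z) :
    ∃ z', Good Θ z' ∧ err Θ z' < err Θ z ∧
      ∀ w, w.1 ≠ 0 → size w < size z' → err Θ z ≤ err Θ w := by
  classical
  have hex : ∃ N : ℕ, ∃ w : (Fin m → ℤ) × (Fin n → ℤ), w.1 ≠ 0 ∧ size w = N ∧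
      err Θ w < err Θ z := by
    obtain ⟨w, hw, he⟩ := dirichlet0 Θ hm _ (err_pos hG hz.1)
    obtain ⟨N, hN⟩ := size_nat w
    exact ⟨N, w, hw, hN, he⟩
  obtain ⟨w₀, hw₀, hs₀, he₀⟩ := Nat.find_spec hex
  obtain ⟨z', hz', h1, h2⟩ := exists_good Θ w₀ hw₀
  refine ⟨z', hz', h2.trans_lt he₀, fun w hw hs => ?_⟩
  by_contra hcon
  push Not at hcon
  obtain ⟨N, hN⟩ := size_nat w
  have hlt : N < Nat.find hex := by
    have : (N : ℝ) < Nat.find hex := by
      rw [← hN, ← hs₀]
      exact hs.trans_le h1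
    exact_mod_cast this
  exact Nat.find_min hex hlt ⟨w, hw, hN, hcon⟩

theorem exists_minimalSeq (hm : 0 < m) {Θ : Matrix (Fin n) (Fin m) ℝ} (hG : CondG Θ) :
    ∃ z, IsMinimalSeq Θ z := by
  classical
  obtain ⟨w₀, hw₀, -⟩ := dirichlet0 Θ hm 1 one_pos
  obtain ⟨z₀, hz₀, -, -⟩ := exists_good Θ w₀ hw₀
  choose F hF1 hF2 hF3 using exists_next hm hG
  let s : ℕ → {z // Good Θ z} := fun k => Nat.rec ⟨z₀, hz₀⟩ (fun _ z => ⟨F z.1 z.2, hF1 z.1 z.2⟩) k
  have hs : ∀ k, (s (k + 1)).1 = F (s k).1 (s k).2 := fun k => rfl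
  refine ⟨fun k => (s k).1, fun k => (s k).2.1, ?_, ?_, ?_⟩
  · apply strictMono_nat_of_lt_succ
    intro k
    by_contra hcon
    push Not at hcon
    have h1 := (s k).2.2 (s (k + 1)).1 (s (k + 1)).2.1 hcon
    have h2 := hF2 (s k).1 (s k).2
    rw [← hs k] at h2
    linarith
  · apply strictAnti_nat_of_succ_lt
    intro k
    have h2 := hF2 (s k).1 (s k).2
    rw [← hs k] at h2
    exact h2
  · intro k w hw hlt
    have h3 := hF3 (s k).1 (s k).2 w hw
    rw [← hs k] at h3
    exact h3 hlt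

end existence

/-! ### Sequences in a plane -/

section lower

variable {m n : ℕ}

/-- the coordinates -/
def co : Fin m ⊕ Fin n → (Fin m → ℝ) × (Fin n → ℝ) → ℝ
  | .inl i, v => v.1 i
  | .inr j, v => v.2 j

/-- the linear forms -/
noncomputable def et (Θ : Matrix (Fin n) (Fin m) ℝ) (j : Fin n)
    (v : (Fin m → ℝ) × (Fin n → ℝ)) : ℝ := (Θ.mulVec v.1 - v.2) j

theorem co_add (c : Fin m ⊕ Fin n) (a b : ℝ) (u v : (Fin m → ℝ) × (Fin n → ℝ)) :
    co c (a • u + b • v) = a * co c u + b * co c v := by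
  cases c <;> simp [co]

theorem et_add (Θ : Matrix (Fin n) (Fin m) ℝ) (j : Fin n) (a b : ℝ)
    (u v : (Fin m → ℝ) × (Fin n → ℝ)) :
    et Θ j (a • u + b • v) = a * et Θ j u + b * et Θ j v := by
  simp only [et, Prod.fst_add, Prod.smul_fst, Prod.snd_add, Prod.smul_snd, Matrix.mulVec_add,
    Matrix.mulVec_smul, Pi.sub_apply, Pi.add_apply, Pi.smul_apply, smul_eq_mul]
  ring

theorem co_int (c : Fin m ⊕ Fin n) (z : (Fin m → ℤ) × (Fin n → ℤ)) : ∃ k : ℤ, co c (vec z) = k := by
  cases c with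
  | inl i => exact ⟨z.1 i, rfl⟩
  | inr j => exact ⟨z.2 j, rfl⟩

theorem abs_fst_le (z : (Fin m → ℤ) × (Fin n → ℤ)) (i : Fin m) : |(vec z).1 i| ≤ size z :=
  norm_le_pi_norm (toReal z.1) i

theorem abs_et_le (Θ : Matrix (Fin n) (Fin m) ℝ) (z : (Fin m → ℤ) × (Fin n → ℤ)) (j : Fin n) :
    |et Θ j (vec z)| ≤ err Θ z :=
  norm_le_pi_norm (Θ.mulVec (toReal z.1) - toReal z.2) j

theorem lower_bound {Θ : Matrix (Fin n) (Fin m) ℝ} (hG : CondG Θ)
    {z : ℕ → (Fin m → ℤ) × (Fin n → ℤ)} (hz : IsMinimalSeq Θ z) (ν₀ : ℕ) (hd : dimTail z ν₀ ≤ 2) :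
    ∃ κ : ℝ, 0 < κ ∧ ∀ ν, ν₀ ≤ ν → κ ≤ size (z (ν + 1)) * err Θ (z ν) := by
  obtain ⟨hne, hsize, herr, -⟩ := hz
  set W := Submodule.span ℝ ((fun ν => (toReal (z ν).1, toReal (z ν).2)) '' {ν | ν₀ ≤ ν}) with hW
  set u := vec (z ν₀) with hu
  set w := vec (z (ν₀ + 1)) with hw
  have hind : ∀ α β : ℝ, α • u + β • w = 0 → α = 0 ∧ β = 0 := fun α β h =>
    indep (hsize (Nat.lt_succ_self ν₀)) (herr (Nat.lt_succ_self ν₀)) h
  have hli : LinearIndependent ℝ ![u, w] := by
    rw [LinearIndependent.pair_iff]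
    exact hind
  have hmemW : ∀ ν, ν₀ ≤ ν → vec (z ν) ∈ W := fun ν hν => Submodule.subset_span ⟨ν, hν, rfl⟩
  have hspan : Submodule.span ℝ (Set.range ![u, w]) = W := by
    apply Submodule.eq_of_le_of_finrank_le
    · rw [Submodule.span_le]
      rintro _ ⟨i, rfl⟩
      fin_cases i
      · exact hmemW ν₀ le_rfl
      · exact hmemW (ν₀ + 1) (Nat.le_succ _)
    · rw [finrank_span_eq_card hli, Fintype.card_fin]
      exact hd
  have hrange : Set.range ![u, w] = {u, w} := by
    ext v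
    constructor
    · rintro ⟨i, rfl⟩
      fin_cases i
      · left; rfl
      · right; rfl
    · rintro (h | h)
      · exact ⟨0, h.symm⟩
      · exact ⟨1, h.symm⟩
  have hrep : ∀ ν, ν₀ ≤ ν → ∃ a b : ℝ, a • u + b • w = vec (z ν) := by
    intro ν hν
    have h := hmemW ν hν
    rw [← hspan, hrange] at h
    exact Submodule.mem_span_pair.1 h
  -- a nonzero integer minor
  obtain ⟨c, c', hcc⟩ : ∃ c c' : Fin m ⊕ Fin n, co c u * co c' w - co c w * co c' u ≠ 0 := by
    by_contra hcon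
    push Not at hcon
    have hu0 : ∃ c : Fin m ⊕ Fin n, co c u ≠ 0 := by
      by_contra h0
      push Not at h0
      have : (1 : ℝ) • u + (0 : ℝ) • w = 0 := by
        simp only [one_smul, zero_smul, add_zero]
        refine Prod.ext ?_ ?_
        · funext i; exact h0 (.inl i)
        · funext j; exact h0 (.inr j)
      have := (hind 1 0 this).1
      norm_num at this
    obtain ⟨c, hc⟩ := hu0
    have : (-co c w) • u + (co c u) • w = 0 := by
      refine Prod.ext ?_ ?_
      · funext i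
        have : co c u * w.1 i - co c w * u.1 i = 0 := hcon c (.inl i)
        simp only [Prod.fst_add, Prod.smul_fst, Pi.add_apply, Pi.smul_apply, smul_eq_mul,
          Prod.fst_zero, Pi.zero_apply]
        linarith
      · funext j
        have : co c u * w.2 j - co c w * u.2 j = 0 := hcon c (.inr j)
        simp only [Prod.snd_add, Prod.smul_snd, Pi.add_apply, Pi.smul_apply, smul_eq_mul,
          Prod.snd_zero, Pi.zero_apply]
        linarith
    exact hc (hind _ _ this).2
  -- a nonzero mixed minor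
  obtain ⟨i, j, hij⟩ : ∃ (i : Fin m) (j : Fin n), u.1 i * et Θ j w - w.1 i * et Θ j u ≠ 0 := by
    by_contra hcon
    push Not at hcon
    obtain ⟨j, hj⟩ : ∃ j, et Θ j u ≠ 0 := by
      by_contra h0
      push Not at h0
      apply hG _ (hne ν₀) (z ν₀).2
      rw [← sub_eq_zero]
      funext j
      exact h0 j
    obtain ⟨i, hi⟩ : ∃ i, u.1 i ≠ 0 := by
      by_contra h0
      push Not at h0
      apply hne ν₀
      apply toReal_eq_zero
      funext i
      exact h0 i
    have hx : ∀ i', u.1 i * w.1 i' - w.1 i * u.1 i' = 0 := by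
      intro i'
      have h1 := hcon i j
      have h2 := hcon i' j
      have h3 : et Θ j u * (u.1 i * w.1 i' - w.1 i * u.1 i') = 0 := by
        linear_combination (-(u.1 i)) * h2 + (u.1 i') * h1
      rcases mul_eq_zero.1 h3 with h | h
      · exact absurd h hj
      · exact h
    have hx' : (-(w.1 i)) • u.1 + (u.1 i) • w.1 = 0 := by
      funext i'
      simp only [Pi.add_apply, Pi.smul_apply, smul_eq_mul, Pi.zero_apply]
      linarith [hx i']
    have : (-(w.1 i)) • u + (u.1 i) • w = 0 := by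
      refine Prod.ext hx' ?_
      funext j'
      have h1 := hcon i j'
      have h2 := et_add Θ j' (-(w.1 i)) (u.1 i) u w
      have h3 : et Θ j' ((-(w.1 i)) • u + (u.1 i) • w) = 0 := by
        rw [h2]; linarith
      unfold et at h3
      rw [Prod.fst_add, Prod.smul_fst, Prod.smul_fst, hx', Matrix.mulVec_zero, zero_sub,
        Pi.neg_apply, neg_eq_zero] at h3
      exact h3
    exact hi (hind _ _ this).2
  set Δ := co c u * co c' w - co c w * co c' u with hΔ
  set μ := u.1 i * et Θ j w - w.1 i * et Θ j u with hμ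
  refine ⟨|μ| / (2 * |Δ|), by positivity, fun ν hν => ?_⟩
  obtain ⟨a, b, hab⟩ := hrep ν hν
  obtain ⟨a', b', hab'⟩ := hrep (ν + 1) (by omega)
  have hlt1 : size (z ν) < size (z (ν + 1)) := hsize (Nat.lt_succ_self ν)
  have hlt2 : err Θ (z (ν + 1)) < err Θ (z ν) := herr (Nat.lt_succ_self ν)
  have hD : a * b' - a' * b ≠ 0 := by
    intro h0
    have h1 : a' • vec (z ν) + (-a) • vec (z (ν + 1)) = 0 := by
      rw [← hab, ← hab']
      have : a' • (a • u + b • w) + (-a) • (a' • u + b' • w) = (-(a * b' - a' * b)) • w := by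
        module
      rw [this, h0, neg_zero, zero_smul]
    have h2 : b' • vec (z ν) + (-b) • vec (z (ν + 1)) = 0 := by
      rw [← hab, ← hab']
      have : b' • (a • u + b • w) + (-b) • (a' • u + b' • w) = (a * b' - a' * b) • u := by
        module
      rw [this, h0, zero_smul]
    have h3 := indep hlt1 hlt2 h1
    have h4 := indep hlt1 hlt2 h2
    have h5 : vec (z ν) = 0 := by
      rw [← hab]
      have : a = 0 := by linarith [h3.2]
      have : b = 0 := by linarith [h4.2]
      simp [*]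
    exact hne ν (toReal_eq_zero (congrArg Prod.fst h5))
  -- the integer minor
  have hint : 1 ≤ |(a * b' - a' * b) * Δ| := by
    have h1 : (a * b' - a' * b) * Δ = co c (vec (z ν)) * co c' (vec (z (ν + 1))) -
        co c (vec (z (ν + 1))) * co c' (vec (z ν)) := by
      rw [← hab, ← hab', co_add, co_add, co_add, co_add, hΔ]
      ring
    obtain ⟨k1, hk1⟩ := co_int c (z ν)
    obtain ⟨k2, hk2⟩ := co_int c' (z (ν + 1))
    obtain ⟨k3, hk3⟩ := co_int c (z (ν + 1))
    obtain ⟨k4, hk4⟩ := co_int c' (z ν)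
    have h2 : (a * b' - a' * b) * Δ = ((k1 * k2 - k3 * k4 : ℤ) : ℝ) := by
      rw [h1, hk1, hk2, hk3, hk4]
      push_cast
      ring
    have h3 : k1 * k2 - k3 * k4 ≠ 0 := by
      intro h0
      rw [h0, Int.cast_zero] at h2
      exact mul_ne_zero hD hcc h2
    rw [h2]
    exact_mod_cast Int.one_le_abs h3
  -- the mixed minor
  have hmix : |(a * b' - a' * b) * μ| ≤ 2 * (size (z (ν + 1)) * err Θ (z ν)) := by
    have h1 : (a * b' - a' * b) * μ = (vec (z ν)).1 i * et Θ j (vec (z (ν + 1))) -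
        (vec (z (ν + 1))).1 i * et Θ j (vec (z ν)) := by
      rw [← hab, ← hab', et_add, et_add, hμ]
      simp only [Prod.fst_add, Prod.smul_fst, Pi.add_apply, Pi.smul_apply, smul_eq_mul]
      ring
    rw [h1]
    refine (abs_sub _ _).trans ?_
    rw [abs_mul, abs_mul]
    have e1 := abs_fst_le (z ν) i
    have e2 := abs_fst_le (z (ν + 1)) i
    have e3 := abs_et_le Θ (z ν) j
    have e4 := abs_et_le Θ (z (ν + 1)) j
    have f1 : |(vec (z ν)).1 i| * |et Θ j (vec (z (ν + 1)))| ≤ size (z (ν + 1)) * err Θ (z ν) :=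
      mul_le_mul (e1.trans hlt1.le) (e4.trans hlt2.le) (abs_nonneg _) (norm_nonneg _)
    have f2 : |(vec (z (ν + 1))).1 i| * |et Θ j (vec (z ν))| ≤ size (z (ν + 1)) * err Θ (z ν) :=
      mul_le_mul e2 e3 (abs_nonneg _) (norm_nonneg _)
    linarith
  rw [abs_mul] at hint hmix
  have hΔp : 0 < |Δ| := abs_pos.2 hcc
  have hμp : 0 < |μ| := abs_pos.2 hij
  rw [div_le_iff₀ (by positivity)]
  have h5 : |μ| ≤ |a * b' - a' * b| * |Δ| * |μ| := by nlinarith
  nlinarith [abs_nonneg (a * b' - a' * b)]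

end lower

/-! ### The result -/

theorem unbounded {m n : ℕ} {z : ℕ → (Fin m → ℤ) × (Fin n → ℤ)}
    (h : StrictMono (fun ν => size (z ν))) (k : ℕ) : (k : ℝ) ≤ size (z k) := by
  induction k with
  | zero => rw [Nat.cast_zero]; exact norm_nonneg _
  | succ k ih =>
    have := size_add_one_le (h (Nat.lt_succ_self k))
    push_cast
    linarith

theorem necessary {m n : ℕ} {Θ : Matrix (Fin n) (Fin m) ℝ} (hG : CondG Θ)
    {z : ℕ → (Fin m → ℤ) × (Fin n → ℤ)} (hz : IsMinimalSeq Θ z) {ν₀ : ℕ} (hd : dimTail z ν₀ ≤ 2) :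
    m ≤ n ∧ ∀ A : Matrix (Fin n) (Fin m) ℤ, m ≤ 2 * (Θ + A.map (fun a : ℤ => (a : ℝ))).rank := by
  obtain ⟨κ, hκ, hlow⟩ := lower_bound hG hz ν₀ hd
  by_contra hcon
  have hor : n < m ∨ ∃ A : Matrix (Fin n) (Fin m) ℤ,
      2 * (Θ + A.map (fun a : ℤ => (a : ℝ))).rank < m := by
    by_contra h
    push Not at h
    exact hcon h
  obtain ⟨D, hD⟩ := exists_nat_gt (1 / κ)
  have hDr : (0 : ℝ) < D := lt_trans (by positivity) hD
  have hDp : 0 < D := by exact_mod_cast hDr
  obtain ⟨X₀, hX₀⟩ := superDirichlet Θ hor D hDp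
  set ν := max ν₀ X₀ with hν
  obtain ⟨X, hX⟩ := size_nat (z (ν + 1))
  have h1 : X₀ ≤ X := by
    have h2 := unbounded hz.2.1 (ν + 1)
    rw [hX] at h2
    have h3 : ν + 1 ≤ X := by exact_mod_cast h2
    have h4 : X₀ ≤ ν := le_max_right _ _
    omega
  obtain ⟨w, hw1, hw2, hw3⟩ := hX₀ X h1
  rw [← hX] at hw2
  have h5 := hz.2.2.2 ν w hw1 hw2
  have h6 := hlow ν (le_max_left _ _)
  rw [hX] at h6
  have h7 : (0 : ℝ) ≤ D * X := by positivity
  have h8 : err Θ (z ν) * (D * X) ≤ 1 := (mul_le_mul_of_nonneg_right h5 h7).trans hw3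
  have h9 : D * κ ≤ D * (X * err Θ (z ν)) := mul_le_mul_of_nonneg_left h6 hDr.le
  rw [div_lt_iff₀ hκ] at hD
  nlinarith

/-- **Planar best approximations: classification of sizes and ranks.** Let `m, n ≥ 1`; the case
`m = n = 2` is the open problem.

(1) If `m ≤ n` and `m ≤ 2 r` and `r ≤ m`, then there is a real `n × m` matrix `Θ` of rank `r` with
(G) whose best approximation vectors form an infinite sequence, and `d(ν₀) = 2` for all `ν₀`. The
same is true for every sequence of minimal points, and these are best approximation vectors.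

(2) Every `Θ` with (G) has sequences of minimal points. If `d(ν₀) ≤ 2` for one such sequence and
one `ν₀`, then `m ≤ n` and `m ≤ 2 rank (Θ + A)` for all integer matrices `A`, in particular
`m ≤ 2 rank Θ`.  -/
theorem result (m n : ℕ) (hm : 1 ≤ m) :
    (∀ r : ℕ, m ≤ n → m ≤ 2 * r → r ≤ m →
      ∃ Θ : Matrix (Fin n) (Fin m) ℝ, Θ.rank = r ∧ CondG Θ ∧ (∃ z, IsListing Θ z) ∧
        (∀ z, IsListing Θ z → ∀ ν₀, dimTail z ν₀ = 2) ∧
        (∀ z, IsMinimalSeq Θ z → (∀ ν, IsBest Θ (z ν)) ∧ ∀ ν₀, dimTail z ν₀ = 2)) ∧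
    (∀ Θ : Matrix (Fin n) (Fin m) ℝ, CondG Θ →
      (∃ z, IsMinimalSeq Θ z) ∧
      ∀ z, IsMinimalSeq Θ z → ∀ ν₀, dimTail z ν₀ ≤ 2 →
        m ≤ n ∧ ∀ A : Matrix (Fin n) (Fin m) ℤ,
          m ≤ 2 * (Θ + A.map (fun a : ℤ => (a : ℝ))).rank) := by
  refine ⟨fun r hmn hr2 hrm => ?_, fun Θ hG => ⟨exists_minimalSeq hm hG, fun z hz ν₀ hd =>
    necessary hG hz hd⟩⟩
  rcases Nat.lt_or_ge m 2 with hm2 | hm2
  · have hm1 : m = 1 := by omega
    subst hm1
    have hr1 : r = 1 := by omega
    subst hr1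
    exact ⟨mat1 ⟨0, hmn⟩, rank_mat1 _, (planar1 _).all⟩
  · rcases Nat.lt_or_ge r m with hlt | hge
    · obtain ⟨b, hb⟩ : ∃ b, m = r + (b + 1) := ⟨m - r - 1, by omega⟩
      obtain ⟨s, hs⟩ : ∃ s, 2 * r = m + s := ⟨2 * r - m, by omega⟩
      obtain ⟨t, ht⟩ : ∃ t, n = m + t := ⟨n - m, by omega⟩
      let e : Fin m ≃ Col b s := Fintype.equivOfCardEq (by simp; omega)
      let f : Fin n ≃ Row b s t := Fintype.equivOfCardEq (by simp; omega)
      refine ⟨mat e f 0, ?_, (planar e f 0).all⟩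
      rw [rank_low]
      omega
    · have hr : r = m := by omega
      subst hr
      obtain ⟨s, hs⟩ : ∃ s, r = 2 + s := ⟨r - 2, by omega⟩
      obtain ⟨t, ht⟩ : ∃ t, n = r + t := ⟨n - r, by omega⟩
      let e : Fin r ≃ Col 0 s := Fintype.equivOfCardEq (by simp; omega)
      let f : Fin n ≃ Row 0 s t := Fintype.equivOfCardEq (by simp; omega)
      exact ⟨mat e f 1, rank_full e f, (planar e f 1).all⟩

end Pool.Agent.Results.MP_a0fa86_nt.PlanarClassification
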